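import Mathlib
import Pool.Agent.Helper12.Hof.Basic

/-! Hofstadter's consecutive-sum sequence, upper bounds: partial sums and the counting function. -/

set_option autoImplicit false

namespace Pool.Agent.Helper12.HofU

open Finset Pool.Agent.Helper12.Hof

/-- the partial sums `a 1 + ... + a n` -/
def S (a : ℕ → ℕ) (n : ℕ) : ℕ := ∑ k ∈ Finset.Icc 1 n, a k

/-- the number of `n ≥ 1` with `a n ≤ x`; the characteristic property is `cnt_le_iff` -/
def cnt (a : ℕ → ℕ) (x : ℕ) : ℕ := Nat.findGreatest (fun n => a n ≤ x) x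

/-- strictly increasing and strictly convex sequences -/
def Conv (s : ℕ → ℕ) : Prop :=
  StrictMono s ∧ ∀ h x y : ℕ, 1 ≤ h → x < y → s (x + h) + s y < s (y + h) + s x

lemma S_zero (a : ℕ → ℕ) : S a 0 = 0 := by simp [S]

lemma S_succ (a : ℕ → ℕ) (n : ℕ) : S a (n + 1) = S a n + a (n + 1) := by
  unfold S
  rw [Finset.sum_Icc_succ_top (by omega)]

lemma pos {a : ℕ → ℕ} (h : IsHof a) (n : ℕ) (hn : 1 ≤ n) : 1 ≤ a n := hn.trans (ge_self h n hn)

lemma S_strictMono {a : ℕ → ℕ} (h : IsHof a) : StrictMono (S a) := by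
  apply strictMono_nat_of_lt_succ
  intro n
  rw [S_succ]
  have := pos h (n + 1) (by omega)
  omega

lemma conv_S {a : ℕ → ℕ} (h : IsHof a) : Conv (S a) := by
  refine ⟨S_strictMono h, ?_⟩
  intro k x y hk hxy
  induction k, hk using Nat.le_induction with
  | base =>
    rw [S_succ, S_succ]
    have := lt_of_lt h (show 1 ≤ x + 1 by omega) (show x + 1 < y + 1 by omega)
    omega
  | succ k hk ih =>
    rw [← add_assoc, ← add_assoc, S_succ, S_succ]
    have := lt_of_lt h (show 1 ≤ x + k + 1 by omega) (show x + k + 1 < y + k + 1 by omega)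
    omega

lemma S_add_sum (a : ℕ → ℕ) (p q : ℕ) (hpq : p ≤ q) :
    S a p + ∑ k ∈ Finset.Icc (p + 1) q, a k = S a q := by
  induction q, hpq using Nat.le_induction with
  | base => simp
  | succ q hq ih =>
    rw [Finset.sum_Icc_succ_top (by omega), S_succ, ← ih]
    ring

/-- every sum of at least two consecutive terms is a term -/
lemma window {a : ℕ → ℕ} (h : IsHof a) (p q : ℕ) (hpq : p + 2 ≤ q) :
    ∃ k, 1 ≤ k ∧ a k = S a q - S a p := by
  classical
  set t := ∑ k ∈ Finset.Icc (p + 1) q, a k with ht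
  have h1 : S a q - S a p = t := by
    have := S_add_sum a p q (by omega)
    omega
  have htq : a q < t := by
    obtain ⟨r, rfl⟩ : ∃ r, q = r + 1 := ⟨q - 1, by omega⟩
    rw [ht, Finset.sum_Icc_succ_top (by omega)]
    have h2 : a r ≤ ∑ k ∈ Finset.Icc (p + 1) r, a k :=
      Finset.single_le_sum (f := a) (fun _ _ => Nat.zero_le _) (Finset.mem_Icc.2 ⟨by omega, le_rfl⟩)
    have := pos h r (by omega)
    omega
  have hex : ∃ n, 1 ≤ n ∧ t ≤ a n := ⟨max t 1, by omega, (le_max_left t 1).trans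
    (ge_self h _ (by omega))⟩
  set n := Nat.find hex with hn
  obtain ⟨hn1, hn2⟩ := Nat.find_spec hex
  rw [← hn] at hn1 hn2
  have hqn : q < n := by
    by_contra hcon
    push Not at hcon
    have := le_of_le h hn1 hcon
    omega
  have hmin : a (n - 1) < t := by
    by_contra hcon
    push Not at hcon
    exact Nat.find_min hex (m := n - 1) (by omega) ⟨by omega, hcon⟩
  have hle : a n ≤ t := by
    apply (h.2.2 n (by omega)).2
    exact ⟨hmin, p + 1, q, by omega, by omega, hqn, ht⟩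
  exact ⟨n, hn1, by omega⟩

/-- every sum of at least one consecutive term is a term -/
lemma window' {a : ℕ → ℕ} (h : IsHof a) (p q : ℕ) (hpq : p < q) :
    ∃ k, 1 ≤ k ∧ a k = S a q - S a p := by
  rcases Nat.lt_or_ge (p + 1) q with h1 | h1
  · exact window h p q h1
  · have : q = p + 1 := by omega
    subst this
    exact ⟨p + 1, by omega, by rw [S_succ]; omega⟩

/-- `a (n+2) ≤ a n + a (n+1)` -/
lemma next_le {a : ℕ → ℕ} (h : IsHof a) (n : ℕ) (hn : 1 ≤ n) : a (n + 2) ≤ a n + a (n + 1) := by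
  apply (h.2.2 (n + 2) (by omega)).2
  have := pos h n hn
  refine ⟨by simpa using (by omega : a (n + 1) < a n + a (n + 1)), n, n + 1, hn, by omega,
    by omega, ?_⟩
  rw [Finset.sum_Icc_succ_top (by omega)]
  simp

/-- `a n ≤ S a (n - 1) + 1` -/
lemma le_S_add_one {a : ℕ → ℕ} (h : IsHof a) (n : ℕ) : a (n + 1) ≤ S a n + 1 := by
  rcases Nat.lt_or_ge n 2 with h1 | h1
  · interval_cases n
    · rw [S_zero]; simp [h.1]
    · rw [S_succ, S_zero]; simp [h.1, h.2.1]
  · obtain ⟨r, rfl⟩ : ∃ r, n = r + 2 := ⟨n - 2, by omega⟩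
    have := next_le h (r + 1) (by omega)
    rw [show r + 2 = (r + 1) + 1 by ring, S_succ, S_succ]
    rw [show r + 1 + 2 = r + 1 + 1 + 1 by ring] at this
    omega

lemma S_le {a : ℕ → ℕ} (h : IsHof a) (n : ℕ) : S a n ≤ n * a n := by
  unfold S
  calc ∑ k ∈ Finset.Icc 1 n, a k ≤ ∑ k ∈ Finset.Icc 1 n, a n := by
        apply Finset.sum_le_sum
        intro k hk
        rw [Finset.mem_Icc] at hk
        exact le_of_le h hk.1 hk.2
    _ = n * a n := by simp

lemma le_S {a : ℕ → ℕ} (n : ℕ) (hn : 1 ≤ n) : a n ≤ S a n := by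
  obtain ⟨r, rfl⟩ : ∃ r, n = r + 1 := ⟨n - 1, by omega⟩
  rw [S_succ]
  omega

/-- the characteristic property of the counting function -/
lemma cnt_le_iff {a : ℕ → ℕ} (h : IsHof a) {n x : ℕ} (hn : 1 ≤ n) : n ≤ cnt a x ↔ a n ≤ x := by
  constructor
  · intro h1
    have h2 : a (cnt a x) ≤ x := by
      have := Nat.findGreatest_of_ne_zero (P := fun n => a n ≤ x) (n := x) (m := cnt a x) rfl
        (by omega)
      exact this
    exact (le_of_le h hn h1).trans h2
  · intro h1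
    exact Nat.le_findGreatest ((ge_self h n hn).trans h1) h1

lemma lt_iff {a : ℕ → ℕ} (h : IsHof a) {n x : ℕ} (hn : 1 ≤ n) : cnt a x < n ↔ x < a n := by
  have := cnt_le_iff h (x := x) hn
  constructor
  · intro h1
    by_contra h2
    push Not at h2
    have := this.2 h2
    omega
  · intro h1
    by_contra h2
    push Not at h2
    have := this.1 h2
    omega

lemma cnt_zero (a : ℕ → ℕ) : cnt a 0 = 0 := by simp [cnt]

lemma cnt_mono {a : ℕ → ℕ} (h : IsHof a) : Monotone (cnt a) := by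
  intro x y hxy
  rcases Nat.eq_zero_or_pos (cnt a x) with h0 | h0
  · omega
  · rw [cnt_le_iff h h0]
    exact ((cnt_le_iff h h0).1 le_rfl).trans hxy

lemma cnt_pos {a : ℕ → ℕ} (h : IsHof a) {x : ℕ} (hx : 1 ≤ x) : 1 ≤ cnt a x := by
  rw [cnt_le_iff h le_rfl, h.1]
  exact hx

lemma cnt_succ_le {a : ℕ → ℕ} (h : IsHof a) (x : ℕ) : cnt a (x + 1) ≤ cnt a x + 1 := by
  by_contra hcon
  push Not at hcon
  have h1 : a (cnt a x + 2) ≤ x + 1 := (cnt_le_iff h (by omega)).1 hcon
  have h2 := step h (cnt a x + 1) (by omega)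
  have h3 : cnt a x + 1 ≤ cnt a x := (cnt_le_iff h (by omega)).2 (by
    rw [show cnt a x + 1 + 1 = cnt a x + 2 by ring] at h2
    omega)
  omega

lemma cnt_self {a : ℕ → ℕ} (h : IsHof a) (n : ℕ) (hn : 1 ≤ n) : cnt a (a n) = n := by
  apply le_antisymm
  · by_contra hcon
    push Not at hcon
    have h1 : a (n + 1) ≤ a n := (cnt_le_iff h (by omega)).1 hcon
    have := step h n hn
    omega
  · exact (cnt_le_iff h hn).2 le_rfl

lemma cnt_le_self (a : ℕ → ℕ) (x : ℕ) : cnt a x ≤ x := Nat.findGreatest_le x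

lemma a_cnt_le {a : ℕ → ℕ} (h : IsHof a) {x : ℕ} (hx : 1 ≤ x) : a (cnt a x) ≤ x :=
  (cnt_le_iff h (cnt_pos h hx)).1 le_rfl

lemma S_cnt_le {a : ℕ → ℕ} (h : IsHof a) (z : ℕ) : S a (cnt a z) ≤ z * cnt a z := by
  rcases Nat.eq_zero_or_pos (cnt a z) with h0 | h0
  · rw [h0, S_zero]; simp
  · have h1 : a (cnt a z) ≤ z := (cnt_le_iff h h0).1 le_rfl
    calc S a (cnt a z) ≤ cnt a z * a (cnt a z) := S_le h _
      _ ≤ cnt a z * z := Nat.mul_le_mul le_rfl h1
      _ = z * cnt a z := by ring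

/-- a finite set of terms `≤ X` has at most `cnt a X` elements -/
lemma card_le_cnt {a : ℕ → ℕ} (h : IsHof a) (T : Finset ℕ) (X : ℕ)
    (hT : ∀ t ∈ T, t ≤ X ∧ ∃ k, 1 ≤ k ∧ a k = t) : T.card ≤ cnt a X := by
  classical
  have hsub : T ⊆ (Finset.Icc 1 (cnt a X)).image a := by
    intro t ht
    obtain ⟨h1, k, hk, rfl⟩ := hT t ht
    rw [Finset.mem_image]
    exact ⟨k, Finset.mem_Icc.2 ⟨hk, (cnt_le_iff h hk).2 h1⟩, rfl⟩
  calc T.card ≤ ((Finset.Icc 1 (cnt a X)).image a).card := Finset.card_le_card hsub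
    _ ≤ (Finset.Icc 1 (cnt a X)).card := Finset.card_image_le
    _ = cnt a X := by simp

/-- sums over a range of indices whose terms are `≥ w` -/
lemma S_ge {a : ℕ → ℕ} (h : IsHof a) (i u w : ℕ) (hiu : i ≤ u) (hw : w ≤ a (i + 1)) :
    (u - i) * w ≤ S a u := by
  have h1 := S_add_sum a i u hiu
  have h2 : (u - i) * w ≤ ∑ k ∈ Finset.Icc (i + 1) u, a k := by
    calc (u - i) * w = ∑ k ∈ Finset.Icc (i + 1) u, w := by simp
      _ ≤ ∑ k ∈ Finset.Icc (i + 1) u, a k := by
        apply Finset.sum_le_sum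
        intro k hk
        rw [Finset.mem_Icc] at hk
        exact hw.trans (le_of_le h (by omega) hk.1)
  omega

end Pool.Agent.Helper12.HofU
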