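import Mathlib
import Pool.Agent.Helper12.HofU.Api

/-! HU-6: two choices.

`balance`: let `z = Nat.findGreatest (fun z => z * cnt a z ≤ X) X`. Since `1 * cnt a 1 = 1 ≤ X`
(`cnt_pos`, `cnt_le_self`), `z ≥ 1` and `z * cnt a z ≤ X`. Next `X < (z+1) * cnt a (z+1)`: if
`z + 1 ≤ X` by `Nat.findGreatest_is_greatest`, and if `z = X` because `cnt a (z+1) ≥ 1`. Finally
`z + 1 ≤ 2 z` and `cnt a (z+1) ≤ cnt a z + 1 ≤ 2 cnt a z`.

`cube`: let `g = Nat.findGreatest (fun g => 2 * g^3 ≤ D) D`; `g ≥ 1` as `2 ≤ D`, and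
`D < 2 (g+1)^3 ≤ 2 (2g)^3`. -/

set_option autoImplicit false

namespace Pool.Agent.Helper12.HofU

open Finset Pool.Agent.Helper12.Hof

lemma balance {a : ℕ → ℕ} (h : IsHof a) (X : ℕ) (hX : 1 ≤ X) :
    ∃ z, 1 ≤ z ∧ z * cnt a z ≤ X ∧ X < 4 * (z * cnt a z) := by
  obtain ⟨z, hz⟩ : ∃ z, z = Nat.findGreatest (fun z => z * cnt a z ≤ X) X := ⟨_, rfl⟩
  have h1 : 1 * cnt a 1 ≤ X := by
    have := cnt_le_self a 1
    omega
  have hz1 : 1 ≤ z := by
    rw [hz]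
    exact Nat.le_findGreatest hX h1
  have hz2 : z * cnt a z ≤ X := by
    rw [hz]
    exact Nat.findGreatest_spec (P := fun z => z * cnt a z ≤ X) hX h1
  have hz3 : X < (z + 1) * cnt a (z + 1) := by
    by_cases hle : z + 1 ≤ X
    · have := Nat.findGreatest_is_greatest (P := fun z => z * cnt a z ≤ X) (n := X) (k := z + 1)
        (by omega) hle
      exact not_le.1 this
    · have h2 : 1 ≤ cnt a (z + 1) := cnt_pos h (by omega)
      calc X < z + 1 := by omega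
        _ = (z + 1) * 1 := (mul_one _).symm
        _ ≤ (z + 1) * cnt a (z + 1) := Nat.mul_le_mul le_rfl h2
  refine ⟨z, hz1, hz2, lt_of_lt_of_le hz3 ?_⟩
  have h3 := cnt_succ_le h z
  have h4 := cnt_pos h hz1
  calc (z + 1) * cnt a (z + 1) ≤ (2 * z) * (2 * cnt a z) :=
        Nat.mul_le_mul (by omega) (by omega)
    _ = 4 * (z * cnt a z) := by ring

lemma cube (D : ℕ) (hD : 2 ≤ D) : ∃ g, 1 ≤ g ∧ 2 * g ^ 3 ≤ D ∧ D < 16 * g ^ 3 := by
  obtain ⟨g, hg⟩ : ∃ g, g = Nat.findGreatest (fun g => 2 * g ^ 3 ≤ D) D := ⟨_, rfl⟩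
  have h1 : 2 * 1 ^ 3 ≤ D := by omega
  have hg1 : 1 ≤ g := by
    rw [hg]
    exact Nat.le_findGreatest (by omega) h1
  have hg2 : 2 * g ^ 3 ≤ D := by
    rw [hg]
    exact Nat.findGreatest_spec (P := fun g => 2 * g ^ 3 ≤ D) (m := 1) (by omega) h1
  have hg3 : D < 2 * (g + 1) ^ 3 := by
    by_cases hle : g + 1 ≤ D
    · have := Nat.findGreatest_is_greatest (P := fun g => 2 * g ^ 3 ≤ D) (n := D) (k := g + 1)
        (by omega) hle
      exact not_le.1 this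
    · have h2 : g + 1 ≤ (g + 1) ^ 3 := Nat.le_self_pow (by norm_num) _
      omega
  refine ⟨g, hg1, hg2, lt_of_lt_of_le hg3 ?_⟩
  calc 2 * (g + 1) ^ 3 ≤ 2 * (2 * g) ^ 3 :=
        Nat.mul_le_mul le_rfl (Nat.pow_le_pow_left (by omega) 3)
    _ = 16 * g ^ 3 := by ring

end Pool.Agent.Helper12.HofU
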