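import Mathlib
import Pool.Agent.Helper12.HofU.Api

/-! HU-1 (Mathlib only, apart from the definition `Conv` in `Api`): the squeezing argument for strictly
convex sequences.

Notation: `T p = {p' in range (P+1) : p < p' and s p' - s p in F}`, `rk v = #{f in F : f < v}`.
`rk` is monotone, `rk v <= #F`, and `rk` is injective (strictly monotone) on `F`.

1. `iso_card`: the map `t -> phi t / (D + 1)` is injective on the filtered set (for `t < t'` in it,
   `phi t + D + 1 <= phi t'`, so `phi t / (D+1) + 1 <= phi t' / (D+1)`) with values in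
   `range (M / (D + 1) + 1)`.

2. `squeeze`: call a hit `(p, t)`, `t in T p`, good if there is `t' in T p` with `t < t'`, `t' <= t + H`
   and `rk (s t' - s p) <= rk (s t - s p) + G`; otherwise it is bad.
   * If `(p, t)` is bad then `t` is in class A: `forall t' in T p, t < t' -> t + H < t'`, or in class B:
     `forall t' in T p, t < t' -> rk (s t - s p) + G < rk (s t' - s p)`. (Otherwise there are `t1, t2`
     in `T p` larger than `t` with `t1 <= t + H`, `rk (s t2 - s p) <= rk (s t - s p) + G`, and
     `t3 = min t1 t2` shows that `(p, t)` is good, by monotonicity of `rk` and of `s`.)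
     By `iso_card` (with `phi = id`, `D = H`, `M = P`, and with `phi t = rk (s t - s p)`, `D = G`,
     `M = #F`) each `p` has at most `P/(H+1) + 1 + #F/(G+1) + 1` bad hits.
   * the good hits: to a good hit `(p, t)` and a witness `t'` associate
     `w = (rk (s t - s p), rk (s t' - s p) - rk (s t - s p), t' - t)` in
     `range #F x Icc 1 G x Icc 1 H`. The triple `w` determines `(p, t)`: the values
     `f = s t - s p`, `f' = s t' - s p` in `F` are determined by their ranks, `h = t' - t` is given, and
     `s (t + h) - s t = f' - f`, where `x -> s (x + h) - s x` is strictly increasing by convexity, so `t`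
     is determined, and `s p = s t - f` determines `p`. Use
     `Finset.card_le_card_of_forall_subsingleton`: at most `#F * G * H` good hits. -/

set_option autoImplicit false

namespace Pool.Agent.Helper12.HofU

open Finset

lemma iso_card (T : Finset ℕ) (φ : ℕ → ℕ) (M D : ℕ) (hM : ∀ t ∈ T, φ t ≤ M) :
    (T.filter (fun t => ∀ t' ∈ T, t < t' → φ t + D < φ t')).card ≤ M / (D + 1) + 1 := by
  rw [← Finset.card_range (M / (D + 1) + 1)]
  apply Finset.card_le_card_of_injOn (fun t => φ t / (D + 1))
  · intro t ht
    have ht' := (Finset.mem_filter.1 (Finset.mem_coe.1 ht)).1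
    rw [Finset.mem_coe, Finset.mem_range]
    exact Nat.lt_succ_of_le (Nat.div_le_div_right (hM t ht'))
  · have key : ∀ t ∈ T.filter (fun t => ∀ t' ∈ T, t < t' → φ t + D < φ t'), ∀ t' ∈ T, t < t' →
        φ t / (D + 1) < φ t' / (D + 1) := by
      intro t ht t' ht' hlt
      have h1 := (Finset.mem_filter.1 ht).2 t' ht' hlt
      have h2 : (φ t + (D + 1)) / (D + 1) ≤ φ t' / (D + 1) := Nat.div_le_div_right (by omega)
      rw [Nat.add_div_right _ (by omega)] at h2
      omega
    intro t ht t' ht' heq
    have ht1 := Finset.mem_coe.1 ht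
    have ht1' := Finset.mem_coe.1 ht'
    simp only at heq
    rcases lt_trichotomy t t' with h | h | h
    · have := key t ht1 t' (Finset.mem_filter.1 ht1').1 h
      omega
    · exact h
    · have := key t' ht1' t (Finset.mem_filter.1 ht1).1 h
      omega

/-- the rank of a number in a finite set -/
def rk (F : Finset ℕ) (v : ℕ) : ℕ := (F.filter (fun f => f < v)).card

lemma rk_mono (F : Finset ℕ) : Monotone (rk F) := by
  intro x y hxy
  apply Finset.card_le_card
  intro f hf
  rw [Finset.mem_filter] at hf ⊢
  exact ⟨hf.1, by omega⟩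

lemma rk_le (F : Finset ℕ) (v : ℕ) : rk F v ≤ F.card := Finset.card_filter_le _ _

lemma rk_lt_card (F : Finset ℕ) (v : ℕ) (hv : v ∈ F) : rk F v < F.card := by
  apply Finset.card_lt_card
  rw [Finset.filter_ssubset]
  exact ⟨v, hv, lt_irrefl v⟩

lemma rk_lt (F : Finset ℕ) (x y : ℕ) (hx : x ∈ F) (hxy : x < y) : rk F x < rk F y := by
  apply Finset.card_lt_card
  rw [Finset.ssubset_iff_of_subset]
  · exact ⟨x, Finset.mem_filter.2 ⟨hx, hxy⟩, fun h => lt_irrefl x (Finset.mem_filter.1 h).2⟩
  · intro f hf
    rw [Finset.mem_filter] at hf ⊢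
    exact ⟨hf.1, by omega⟩

lemma rk_inj (F : Finset ℕ) (x y : ℕ) (hx : x ∈ F) (hy : y ∈ F) (h : rk F x = rk F y) : x = y := by
  rcases lt_trichotomy x y with h1 | h1 | h1
  · have := rk_lt F x y hx h1
    omega
  · exact h1
  · have := rk_lt F y x hy h1
    omega

/-- the number of pairs `p < p'` with `s p' - s p` in `F` -/
theorem squeeze (s : ℕ → ℕ) (hs : Conv s) (F : Finset ℕ) (P G H : ℕ) :
    (((range (P + 1)) ×ˢ (range (P + 1))).filter
      (fun w : ℕ × ℕ => w.1 < w.2 ∧ s w.2 - s w.1 ∈ F)).card ≤
      (P + 1) * (P / (H + 1) + F.card / (G + 1) + 2) + F.card * G * H := by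
  classical
  obtain ⟨hmono, hconv⟩ := hs
  set W := (((range (P + 1)) ×ˢ (range (P + 1))).filter
      (fun w : ℕ × ℕ => w.1 < w.2 ∧ s w.2 - s w.1 ∈ F)) with hW
  set good : ℕ × ℕ → Prop := fun w => ∃ t' : ℕ, (w.1, t') ∈ W ∧ w.2 < t' ∧ t' ≤ w.2 + H ∧
    rk F (s t' - s w.1) ≤ rk F (s w.2 - s w.1) + G with hgood
  have hsplit : W.card = (W.filter good).card + (W.filter (fun w => ¬ good w)).card :=
    (Finset.card_filter_add_card_filter_not good).symm
  have memW : ∀ p t : ℕ, (p, t) ∈ W ↔ p ≤ P ∧ t ≤ P ∧ p < t ∧ s t - s p ∈ F := by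
    intro p t
    rw [hW, Finset.mem_filter, Finset.mem_product, Finset.mem_range, Finset.mem_range]
    constructor
    · rintro ⟨⟨h1, h2⟩, h3, h4⟩
      simp only at h1 h2 h3 h4
      exact ⟨by omega, by omega, h3, h4⟩
    · rintro ⟨h1, h2, h3, h4⟩
      exact ⟨⟨by simp only; omega, by simp only; omega⟩, h3, h4⟩
  -- the bad ones
  have hbad : (W.filter (fun w => ¬ good w)).card ≤
      (P + 1) * (P / (H + 1) + F.card / (G + 1) + 2) := by
    rw [Finset.card_eq_sum_card_fiberwise (f := Prod.fst) (t := range (P + 1))]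
    · calc _ ≤ ∑ b ∈ range (P + 1), (P / (H + 1) + F.card / (G + 1) + 2) := ?_
        _ = _ := by simp
      apply Finset.sum_le_sum
      intro p hp
      set T := (range (P + 1)).filter (fun t => (p, t) ∈ W) with hT
      have hT1 : ∀ t ∈ T, id t ≤ P := by
        intro t ht
        have := (Finset.mem_range.1 (Finset.mem_filter.1 ht).1)
        simp only [id]
        omega
      have h1 : (T.filter (fun t => ∀ t' ∈ T, t < t' → t + H < t')).card ≤ P / (H + 1) + 1 :=
        iso_card T id P H hT1
      have h2 : (T.filter (fun t => ∀ t' ∈ T, t < t' →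
          rk F (s t - s p) + G < rk F (s t' - s p))).card ≤ F.card / (G + 1) + 1 :=
        iso_card T (fun t => rk F (s t - s p)) F.card G (fun t _ => rk_le F _)
      have h3 : ((W.filter (fun w => ¬ good w)).filter (fun w => w.1 = p)).card ≤
          ((T.filter (fun t => ∀ t' ∈ T, t < t' → t + H < t')) ∪
           (T.filter (fun t => ∀ t' ∈ T, t < t' →
            rk F (s t - s p) + G < rk F (s t' - s p)))).card := by
        apply Finset.card_le_card_of_injOn Prod.snd
        · rintro ⟨q, t⟩ hw
          have hw := Finset.mem_coe.1 hw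
          rw [Finset.mem_filter, Finset.mem_filter] at hw
          obtain ⟨⟨hw1, hw2⟩, hw3⟩ := hw
          simp only at hw3
          subst hw3
          rw [Finset.mem_coe, Finset.mem_union]
          have htT : t ∈ T := by
            rw [hT, Finset.mem_filter, Finset.mem_range]
            exact ⟨by have := (memW _ _).1 hw1; omega, hw1⟩
          by_contra hcon
          rw [not_or] at hcon
          obtain ⟨hc1, hc2⟩ := hcon
          have hc1' : ¬ ∀ t' ∈ T, t < t' → t + H < t' :=
            fun h => hc1 (Finset.mem_filter.2 ⟨htT, h⟩)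
          have hc2' : ¬ ∀ t' ∈ T, t < t' → rk F (s t - s q) + G < rk F (s t' - s q) :=
            fun h => hc2 (Finset.mem_filter.2 ⟨htT, h⟩)
          push Not at hc1' hc2'
          obtain ⟨t1, ht1, ht1lt, ht1H⟩ := hc1'
          obtain ⟨t2, ht2, ht2lt, ht2G⟩ := hc2'
          have hm1 := (Finset.mem_filter.1 ht1).2
          have hm2 := (Finset.mem_filter.1 ht2).2
          apply hw2
          rcases le_total t1 t2 with h | h
          · refine ⟨t1, hm1, ht1lt, ht1H, ?_⟩
            refine le_trans (rk_mono F ?_) ht2G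
            exact Nat.sub_le_sub_right (hmono.monotone h) _
          · refine ⟨t2, hm2, ht2lt, by simp only; omega, ht2G⟩
        · rintro ⟨q, t⟩ hw ⟨q', t'⟩ hw' heq
          have hw := (Finset.mem_filter.1 (Finset.mem_coe.1 hw)).2
          have hw' := (Finset.mem_filter.1 (Finset.mem_coe.1 hw')).2
          simp only at hw hw' heq
          rw [hw, hw', heq]
      have h4 := Finset.card_union_le (T.filter (fun t => ∀ t' ∈ T, t < t' → t + H < t'))
        (T.filter (fun t => ∀ t' ∈ T, t < t' → rk F (s t - s p) + G < rk F (s t' - s p)))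
      omega
    · intro w hw
      have := (Finset.mem_filter.1 (Finset.mem_filter.1 (Finset.mem_coe.1 hw)).1).1
      exact Finset.mem_coe.2 (Finset.mem_product.1 this).1
  -- the good ones
  have hgood' : (W.filter good).card ≤ F.card * G * H := by
    have hc : ((range F.card) ×ˢ ((Icc 1 G) ×ˢ (Icc 1 H))).card = F.card * G * H := by
      rw [Finset.card_product, Finset.card_product]
      simp [mul_assoc]
    rw [← hc]
    apply Finset.card_le_card_of_forall_subsingleton
      (fun (w : ℕ × ℕ) (v : ℕ × (ℕ × ℕ)) => ∃ t' : ℕ, (w.1, t') ∈ W ∧ w.2 < t' ∧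
        v.1 = rk F (s w.2 - s w.1) ∧ v.1 + v.2.1 = rk F (s t' - s w.1) ∧ w.2 + v.2.2 = t')
    · rintro ⟨p, t⟩ hw
      rw [Finset.mem_filter] at hw
      obtain ⟨hw1, t', h1, h2, h3, h4⟩ := hw
      simp only at h1 h2 h3 h4
      obtain ⟨hp, ht, hpt, hF⟩ := (memW _ _).1 hw1
      obtain ⟨_, ht', hpt', hF'⟩ := (memW _ _).1 h1
      have h5 : s t - s p < s t' - s p := by
        have := hmono h2
        have := hmono hpt
        omega
      have h6 := rk_lt F _ _ hF h5
      have h7 := rk_lt_card F _ hF
      refine ⟨(rk F (s t - s p), rk F (s t' - s p) - rk F (s t - s p), t' - t), ?_, ?_⟩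
      · rw [Finset.mem_product, Finset.mem_product, Finset.mem_range, Finset.mem_Icc,
          Finset.mem_Icc]
        simp only
        refine ⟨h7, ⟨by omega, by omega⟩, by omega, by omega⟩
      · refine ⟨t', h1, h2, rfl, ?_, ?_⟩
        · simp only; omega
        · simp only; omega
    · rintro ⟨r, g, k⟩ hv
      rw [Finset.mem_product, Finset.mem_product, Finset.mem_Icc, Finset.mem_Icc] at hv
      simp only at hv
      obtain ⟨_, ⟨_, _⟩, hk1, hk2⟩ := hv
      rintro ⟨p, t⟩ ⟨hpt, t', h1, h2, h3, h4, h5⟩ ⟨q, u⟩ ⟨hqu, u', g1, g2, g3, g4, g5⟩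
      have hpt := (Finset.mem_filter.1 hpt).1
      have hqu := (Finset.mem_filter.1 hqu).1
      simp only at h1 h2 h3 h4 h5 g1 g2 g3 g4 g5
      obtain ⟨hp, ht, hptl, hF⟩ := (memW _ _).1 hpt
      obtain ⟨_, ht', hpt', hF'⟩ := (memW _ _).1 h1
      obtain ⟨hq, hu, hqul, hG⟩ := (memW _ _).1 hqu
      obtain ⟨_, hu', hqu', hG'⟩ := (memW _ _).1 g1
      have e1 : s t - s p = s u - s q := rk_inj F _ _ hF hG (by omega)
      have e2 : s t' - s p = s u' - s q := rk_inj F _ _ hF' hG' (by omega)
      have m1 := hmono hptl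
      have m2 := hmono hpt'
      have m3 := hmono hqul
      have m4 := hmono hqu'
      have etu : t = u := by
        rcases lt_trichotomy t u with h | h | h
        · have := hconv k t u hk1 h
          rw [h5, g5] at this
          omega
        · exact h
        · have := hconv k u t hk1 h
          rw [h5, g5] at this
          omega
      subst etu
      have : p = q := hmono.injective (by omega)
      rw [this]
  omega

end Pool.Agent.Helper12.HofU
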