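import Mathlib
import Pool.Agent.Helper12.HofU.Squeeze

/-! HU-5: the first lower bound for the counting function, `cnt a (S a n) ≥ n^(3/2) / 20`.

Proof. Let `M = cnt a (S a n)` (`M ≥ 1`) and `F = image a (Icc 1 M)`, `#F ≤ M`. For all pairs
`p < p' ≤ n` the number `S a p' - S a p` is a term (`window'`) and it is at most `S a n`, so it is in
`F`. The number of pairs `p < p'` in `range (n+1)` is `n (n+1) / 2`. Apply `squeeze` with `s = S a`,
`P = n`, `H = 4`, `G = 10 M / n` (natural division):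
`n (n+1) / 2 ≤ (n+1) (n/5 + M/(G+1) + 2) + 4 M G`, where `M/(G+1) ≤ n/10` (real inequality, as
`10 M < (G+1) n`) and `4 M G ≤ 40 M^2 / n`. Hence
`(n+1) (n/2 - n/5 - n/10 - 2) ≤ 40 M^2 / n`, i.e. `n (n+1) (n/5 - 2) ≤ 40 M^2`; since `n ≥ 100`,
`n/5 - 2 ≥ 9n/50`, so `n^3 * 9/50 ≤ 40 M^2`, `n^3 ≤ 223 M^2`. (Do it in `ℝ` or `ℚ`.) -/

set_option autoImplicit false

namespace Pool.Agent.Helper12.HofU

open Finset Pool.Agent.Helper12.Hof

private lemma ba_pairs (n : ℕ) :
    2 * (((range (n + 1)) ×ˢ (range (n + 1))).filter (fun w : ℕ × ℕ => w.1 < w.2)).card =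
      n * (n + 1) := by
  have h1 : (((range (n + 1)) ×ˢ (range (n + 1))).filter (fun w : ℕ × ℕ => w.1 < w.2)).card =
      ∑ q ∈ range (n + 1), q := by
    rw [card_filter, sum_product_right]
    refine sum_congr rfl fun q hq => ?_
    rw [mem_range] at hq
    rw [← card_filter]
    have h2 : (range (n + 1)).filter (fun p => (p, q).1 < (p, q).2) = range q := by
      ext p
      simp only [mem_filter, mem_range]
      omega
    rw [h2, card_range]
  rw [h1, mul_comm 2, sum_range_id_mul_two]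
  simp only [Nat.add_sub_cancel]
  ring

theorem baseA {a : ℕ → ℕ} (h : IsHof a) (n : ℕ) (hn : 100 ≤ n) :
    n ^ 3 ≤ 400 * (cnt a (S a n)) ^ 2 := by
  set M := cnt a (S a n) with hM
  set F : Finset ℕ := (Icc 1 M).image a with hF
  have hFc : F.card ≤ M := by
    calc F.card ≤ (Icc 1 M).card := card_image_le
      _ = M := by simp
  have hmem : ∀ p q, p < q → q ≤ n → S a q - S a p ∈ F := by
    intro p q hpq hqn
    obtain ⟨k, hk, hk2⟩ := window' h p q hpq
    rw [← hk2, hF, mem_image]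
    refine ⟨k, mem_Icc.2 ⟨hk, ?_⟩, rfl⟩
    rw [hM, cnt_le_iff h hk, hk2]
    have h1 : S a q ≤ S a n := (S_strictMono h).monotone hqn
    omega
  have hsq := squeeze (S a) (conv_S h) F n (10 * M / n) 4
  have hcard : (((range (n + 1)) ×ˢ (range (n + 1))).filter
      (fun w : ℕ × ℕ => w.1 < w.2 ∧ S a w.2 - S a w.1 ∈ F)).card =
      (((range (n + 1)) ×ˢ (range (n + 1))).filter (fun w : ℕ × ℕ => w.1 < w.2)).card := by
    congr 1
    refine filter_congr fun w hw => ?_
    rw [mem_product, mem_range, mem_range] at hw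
    exact ⟨fun h => h.1, fun h => ⟨h, hmem _ _ h (by omega)⟩⟩
  rw [hcard] at hsq
  have hpairs := ba_pairs n
  generalize (((range (n + 1)) ×ˢ (range (n + 1))).filter (fun w : ℕ × ℕ => w.1 < w.2)).card = C
    at *
  set G := 10 * M / n with hG
  have hGn : G * n ≤ 10 * M := Nat.div_mul_le_self _ _
  have hGn2 : 10 * M < (G + 1) * n := by
    have := Nat.lt_mul_div_succ (10 * M) (show 0 < n by omega)
    rw [← hG] at this
    linarith [mul_comm n (G + 1)]
  -- the quotient
  set q := F.card / (G + 1) with hq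
  have hq1 : 10 * q ≤ n := by
    have h1 : q * (G + 1) ≤ F.card := Nat.div_mul_le_self _ _
    by_contra hcon
    push Not at hcon
    have h2 : n * (G + 1) ≤ 10 * q * (G + 1) := Nat.mul_le_mul hcon.le le_rfl
    nlinarith
  set x := n / 5 with hx
  have hx1 : 5 * x ≤ n := Nat.mul_div_le n 5
  have h1 : F.card * G * 4 * n ≤ 40 * M ^ 2 := by
    have h2 : F.card * (G * n) ≤ M * (10 * M) := Nat.mul_le_mul hFc hGn
    nlinarith
  have h3 : 10 * (x + q + 2) ≤ 3 * n + 20 := by omega
  have h4 : 20 * n * C ≤ 2 * n * (n + 1) * (10 * (x + q + 2)) + 20 * (F.card * G * 4 * n) := by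
    have := Nat.mul_le_mul (le_refl (20 * n)) hsq
    nlinarith
  have h5 : 2 * n * (n + 1) * (10 * (x + q + 2)) ≤ 2 * n * (n + 1) * (3 * n + 20) :=
    Nat.mul_le_mul le_rfl h3
  have h6 : 10 * n * (n * (n + 1)) ≤ 2 * n * (n + 1) * (3 * n + 20) + 800 * M ^ 2 := by
    rw [← hpairs]
    nlinarith
  nlinarith [Nat.mul_le_mul (le_refl (n ^ 2)) hn]

end Pool.Agent.Helper12.HofU
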