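import Mathlib
import Pool.Agent.Helper12.HofU.BaseA
import Pool.Agent.Helper12.HofU.Balance

/-! HU-8: `cnt a x ≥ κ x^(2/5)`, in logarithmic form.

Proof. Let `N = 10^16`, `x0 = 4 * (a N)^2 + 1`, `K = log x0` and claim
`(2/5) log x ≤ log (cnt a x) + K` for all `x ≥ 1` by strong induction on `x`.
* `x < x0`: `(2/5) log x ≤ log x0`, and `log (cnt a x) ≥ 0` (`cnt_pos`).
* `x ≥ x0`: by `balance` there is `y ≥ 1` with `y n ≤ x < 4 y n`, `n = cnt a y`. As `n ≤ y`
  (`cnt_le_self`) `4 (a N)^2 < x < 4 y^2`, so `y > a N` and `n ≥ N` (`cnt_le_iff`). By `S_cnt_le`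
  `S a n ≤ y n ≤ x`, so `baseA` and `cnt_mono` give `n^3 ≤ 400 (cnt a x)^2`, i.e.
  `3 log n ≤ log 400 + 2 log (cnt a x)`. As `n ≥ 2`, `y < x`, and the induction hypothesis is
  `(2/5) log y ≤ log n + K`. Hence
  `(2/5) log x ≤ (2/5) (log 4 + log y + log n) ≤ (2/5) log 4 + (7/5) log n + K`, and this is at most
  `(3/2) log n - (1/2) log 400 + K` iff `(1/10) log n ≥ (1/2) log 400 + (2/5) log 4`, i.e.
  `log n ≥ 10 log 20 + 4 log 4 = log (20^10 * 256)`, which holds since
  `20^10 * 256 = 2621440000000000 ≤ 10^16 ≤ n`. -/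

set_option autoImplicit false

namespace Pool.Agent.Helper12.HofU

open Finset Pool.Agent.Helper12.Hof

theorem baseB {a : ℕ → ℕ} (h : IsHof a) :
    ∃ K : ℝ, ∀ x : ℕ, 1 ≤ x → (2 / 5 : ℝ) * Real.log x ≤ Real.log (cnt a x) + K := by
  obtain ⟨N, hN⟩ : ∃ N : ℕ, N = 10 ^ 16 := ⟨_, rfl⟩
  have hN100 : 100 ≤ N := by rw [hN]; norm_num
  have hNbig : 20 ^ 10 * 4 ^ 4 ≤ N := by rw [hN]; norm_num
  clear hN
  refine ⟨Real.log ((4 * (a N) ^ 2 + 1 : ℕ) : ℝ), ?_⟩
  intro x
  induction x using Nat.strong_induction_on with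
  | _ x ih =>
  intro hx
  have hc1 : 1 ≤ cnt a x := cnt_pos h hx
  have hlc : 0 ≤ Real.log (cnt a x) := Real.log_nonneg (by exact_mod_cast hc1)
  rcases Nat.lt_or_ge x (4 * (a N) ^ 2 + 1) with hlt | hge
  · have h1 : Real.log x ≤ Real.log ((4 * (a N) ^ 2 + 1 : ℕ) : ℝ) :=
      Real.log_le_log (by exact_mod_cast hx) (by exact_mod_cast hlt.le)
    have h2 : 0 ≤ Real.log x := Real.log_nonneg (by exact_mod_cast hx)
    linarith
  · obtain ⟨y, hy1, hyle, hylt⟩ := balance h x hx
    have hny : cnt a y ≤ y := cnt_le_self a y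
    have hSy := S_cnt_le h y
    have hiff := cnt_le_iff h (n := N) (x := y) (by omega)
    have hyaN : a N < y := by
      by_contra hcon
      push Not at hcon
      have h1 : y * cnt a y ≤ a N * a N := Nat.mul_le_mul hcon (hny.trans hcon)
      have h2 : a N ^ 2 = a N * a N := by ring
      omega
    have hNn : N ≤ cnt a y := hiff.2 hyaN.le
    generalize hn : cnt a y = n at *
    have hS : S a n ≤ x := hSy.trans hyle
    have hA := baseA h n (by omega)
    have hmono : cnt a (S a n) ≤ cnt a x := cnt_mono h hS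
    have hA' : n ^ 3 ≤ 400 * (cnt a x) ^ 2 := hA.trans (by gcongr)
    have hyx : y < x := by
      have h1 : y * 2 ≤ y * n := Nat.mul_le_mul le_rfl (by omega)
      omega
    have hih := ih y hyx hy1
    rw [hn] at hih
    have hnR : (0 : ℝ) < n := by
      have : 0 < n := by omega
      exact_mod_cast this
    have hyR : (0 : ℝ) < y := by exact_mod_cast hy1
    have hxR : (0 : ℝ) < x := by exact_mod_cast hx
    have hcR : (0 : ℝ) < cnt a x := by exact_mod_cast hc1
    have l3 : 3 * Real.log n ≤ Real.log 400 + 2 * Real.log (cnt a x) := by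
      have h1 : ((n : ℝ)) ^ 3 ≤ 400 * (cnt a x : ℝ) ^ 2 := by exact_mod_cast hA'
      have h2 := Real.log_le_log (by positivity) h1
      rw [Real.log_pow, Real.log_mul (by norm_num) (by positivity), Real.log_pow] at h2
      exact_mod_cast h2
    have l4 : Real.log x ≤ Real.log 4 + (Real.log y + Real.log n) := by
      have h1 : (x : ℝ) ≤ 4 * ((y : ℝ) * n) := by exact_mod_cast hylt.le
      have h2 := Real.log_le_log hxR h1
      rwa [Real.log_mul (by norm_num) (by positivity), Real.log_mul hyR.ne' hnR.ne'] at h2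
    have l5 : 10 * Real.log 20 + 4 * Real.log 4 ≤ Real.log n := by
      have h0 : 20 ^ 10 * 4 ^ 4 ≤ n := hNbig.trans hNn
      have h1 : ((20 : ℝ)) ^ 10 * 4 ^ 4 ≤ n := by exact_mod_cast h0
      have h2 := Real.log_le_log (by positivity) h1
      rw [Real.log_mul (by positivity) (by positivity), Real.log_pow, Real.log_pow] at h2
      exact_mod_cast h2
    have l6 : Real.log 400 = 2 * Real.log 20 := by
      rw [show (400 : ℝ) = 20 ^ 2 by norm_num, Real.log_pow]
      norm_num
    linarith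

end Pool.Agent.Helper12.HofU
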