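import Mathlib

/-! HU-2 (Mathlib only): few collisions imply a large image.

`A.card ≤ (A.image f).card + N` if the number of collisions `x < y` (for a linear order, or for any
irreflexive relation `r` such that `x ≠ y → r x y ∨ r y x`) is at most `N`.

Proof. Let `N` be the number of pairs `z in A x A` with `r z.1 z.2` and `f z.1 = f z.2`. The pairs with
`z.1 ≠ z.2` and `f z.1 = f z.2` number at most `2 N` (by `hr`, `z` or its swap is counted in `N`; the swap
is injective). So the number of all pairs with `f z.1 = f z.2`, which is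
`Sum_{b in image} #A_b ^ 2` for the fibres `A_b`, is at most `#A + 2 N`. For naturals
`3 k ≤ k ^ 2 + 2` (`(k-1)(k-2) ≥ 0`), so summing over the image
`3 #A = Sum 3 #A_b ≤ Sum (#A_b ^ 2 + 2) ≤ #A + 2 N + 2 #image`, i.e. `#A ≤ N + #image`. -/

set_option autoImplicit false

namespace Pool.Agent.Helper12.HofU

open Finset

theorem card_le_image_add {α β : Type*} [DecidableEq α] [DecidableEq β] (A : Finset α) (f : α → β)
    (r : α → α → Prop) [DecidableRel r] (hr : ∀ x ∈ A, ∀ y ∈ A, f x = f y → x ≠ y → r x y ∨ r y x) :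
    A.card ≤ (A.image f).card +
      ((A ×ˢ A).filter (fun z : α × α => r z.1 z.2 ∧ f z.1 = f z.2)).card := by
  set N := ((A ×ˢ A).filter (fun z : α × α => r z.1 z.2 ∧ f z.1 = f z.2)) with hN
  -- all pairs
  have h1 : ((A ×ˢ A).filter (fun z : α × α => f z.1 = f z.2)).card =
      ∑ b ∈ A.image f, (A.filter (fun x => f x = b)).card ^ 2 := by
    rw [Finset.card_eq_sum_card_fiberwise (f := fun z : α × α => f z.1) (t := A.image f)]
    · apply Finset.sum_congr rfl
      intro b hb
      rw [sq, ← Finset.card_product]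
      congr 1
      ext ⟨x, y⟩
      simp only [Finset.mem_filter, Finset.mem_product]
      constructor
      · rintro ⟨⟨⟨h1, h2⟩, h3⟩, h4⟩
        exact ⟨⟨h1, h4⟩, h2, by rw [← h3]; exact h4⟩
      · rintro ⟨⟨h1, h2⟩, h3, h4⟩
        exact ⟨⟨⟨h1, h3⟩, by simp only [h2, h4]⟩, h2⟩
    · intro z hz
      have hz' := (Finset.mem_filter.1 (Finset.mem_coe.1 hz)).1
      rw [Finset.mem_product] at hz'
      exact Finset.mem_coe.2 (Finset.mem_image_of_mem f hz'.1)
  have h2 : A.card = ∑ b ∈ A.image f, (A.filter (fun x => f x = b)).card := by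
    rw [Finset.card_eq_sum_card_fiberwise (f := f) (t := A.image f)]
    intro x hx
    exact Finset.mem_coe.2 (Finset.mem_image_of_mem f (Finset.mem_coe.1 hx))
  have h3 : 3 * A.card ≤ ((A ×ˢ A).filter (fun z : α × α => f z.1 = f z.2)).card +
      2 * (A.image f).card := by
    rw [h1, h2, Finset.mul_sum, mul_comm 2, ← smul_eq_mul, ← Finset.sum_const, ← Finset.sum_add_distrib]
    apply Finset.sum_le_sum
    intro b _
    generalize (A.filter (fun x => f x = b)).card = k
    rcases Nat.lt_or_ge k 3 with h | h
    · interval_cases k <;> norm_num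
    · nlinarith
  have h4 : ((A ×ˢ A).filter (fun z : α × α => f z.1 = f z.2)) ⊆
      (A.image (fun x => (x, x))) ∪ (N ∪ N.image Prod.swap) := by
    rintro ⟨x, y⟩ hz
    rw [Finset.mem_filter, Finset.mem_product] at hz
    obtain ⟨⟨hx, hy⟩, hf⟩ := hz
    simp only at hx hy hf
    rw [Finset.mem_union, Finset.mem_union]
    by_cases hxy : x = y
    · left
      rw [Finset.mem_image]
      exact ⟨x, hx, by rw [hxy]⟩
    · right
      rcases hr x hx y hy hf hxy with h | h
      · left
        rw [hN, Finset.mem_filter, Finset.mem_product]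
        exact ⟨⟨hx, hy⟩, h, hf⟩
      · right
        rw [Finset.mem_image]
        refine ⟨(y, x), ?_, rfl⟩
        rw [hN, Finset.mem_filter, Finset.mem_product]
        exact ⟨⟨hy, hx⟩, h, hf.symm⟩
  have h5 := (Finset.card_le_card h4).trans ((Finset.card_union_le _ _).trans
    (Nat.add_le_add Finset.card_image_le ((Finset.card_union_le _ _).trans
      (Nat.add_le_add_left Finset.card_image_le _))))
  omega

end Pool.Agent.Helper12.HofU
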