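import Mathlib
import Pool.Agent.Helper12.HofU.Squeeze
import Pool.Agent.Helper12.HofU.Cs

/-! HU-3: the differences `s q - s p`, `q` in a block of `g ^ 3` indices, `p ≤ P`, are distinct up to a
factor `2`.

Proof of `distinct`. If `g = 0` the claim is trivial. Let `Q = Ioc u (u + g^3)`, `A = Q x range (P+1)`,
`f (q, p) = s q - s p`, `r x y = x.1 < y.1`, `#A = g^3 (P+1)`. If `f x = f y` and `x ≠ y`, then
`x.1 ≠ y.1` (`s` is injective and `s p ≤ s q` as `p ≤ P ≤ u < q`), so `card_le_image_add` applies and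
it is enough to show that the number of collisions `N` satisfies `2 N <= g^3 (P+1)`.

A collision is `((q, p), (q', p'))` with `q < q'`, `s q' - s q = s p' - s p` (from
`s q - s p = s q' - s p'`, all values are `≥`, so `s q' + s p = s q + s p'`), hence `p < p'`. Put
`m = q' - q ≥ 1`. By convexity `m * (s (u+1) - s u) ≤ s q' - s q` (induction on `m`, as
`s (q+1) - s q > s (u+1) - s u` for `q > u`), while `s p' - s p ≤ s P - s 0`, so
`10 m d ≤ 10 (s P - s 0) ≤ g d` with `d = s (u+1) - s u > 0`, i.e. `10 m ≤ g`.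

For fixed `m` let `F_m` be the image of `Q` under `q -> s (q + m) - s q`, `#F_m ≤ g^3`. The collisions
with given `m` inject into `{(p, p') : p < p' ≤ P, s p' - s p ∈ F_m}`
(`(p, p')` and `m` determine `q`, as `q -> s (q+m) - s q` is strictly increasing by convexity). By
`squeeze` with `G = g`, `H = P / g^2` (natural division) their number is at most
`(P+1) (P/(H+1) + g^3/(g+1) + 2) + g^3 * g * (P/g^2)`, where `P/(H+1) ≤ g^2`
(as `P < (H+1) g^2`), `g^3/(g+1) ≤ g^2` and `g^3 * g * (P/g^2) ≤ g^2 P`; so it is at most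
`(P+1)(2 g^2 + 2) + g^2 P ≤ 5 (P+1) g^2`. Summing over `1 ≤ m ≤ g/10`:
`N ≤ (g/10) * 5 (P+1) g^2`, so `2 N ≤ g^3 (P+1)`. (Formally: the set of collisions is contained in a
union over `m ∈ Icc 1 (g/10)`; use `Finset.card_biUnion_le`.)

Proof of `cnt_lower`. Apply `distinct` with `s = S a` (`S a (u+1) - S a u = a (u+1)`, `S a 0 = 0`), and
`card_le_cnt` to the image: `S a q - S a p` with `p ≤ P < u < q` is a term by `window` and it is at most
`S a (u + g^3)`. -/

set_option autoImplicit false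

namespace Pool.Agent.Helper12.HofU

open Finset Pool.Agent.Helper12.Hof

lemma conv_growth (s : ℕ → ℕ) (hs : Conv s) (u q m : ℕ) (huq : u < q) :
    m * (s (u + 1) - s u) ≤ s (q + m) - s q := by
  induction m with
  | zero => simp
  | succ m ih =>
    have h1 := hs.2 1 u (q + m) le_rfl (by omega)
    have h2 := hs.1 (show u < u + 1 by omega)
    have h3 := hs.1.monotone (show q ≤ q + m by omega)
    rw [← add_assoc, Nat.add_mul, one_mul]
    omega

/-- the number of collisions with a given difference of indices -/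
lemma coll_m (s : ℕ → ℕ) (hs : Conv s) (P u g m : ℕ) (hPu : P ≤ u) (hg : 1 ≤ g) (hm : 1 ≤ m) :
    (((((Ioc u (u + g ^ 3)) ×ˢ (range (P + 1))) ×ˢ ((Ioc u (u + g ^ 3)) ×ˢ (range (P + 1)))).filter
      (fun z : (ℕ × ℕ) × (ℕ × ℕ) => z.1.1 < z.2.1 ∧ s z.1.1 - s z.1.2 = s z.2.1 - s z.2.2)).filter
      (fun z => z.2.1 = z.1.1 + m)).card ≤ 5 * (P + 1) * g ^ 2 := by
  classical
  set F := (Ioc u (u + g ^ 3)).image (fun q => s (q + m) - s q) with hF
  have hFc : F.card ≤ g ^ 3 := by
    refine Finset.card_image_le.trans ?_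
    simp
  have hsq := squeeze s hs F P g (P / g ^ 2)
  have hg2 : 1 ≤ g ^ 2 := Nat.one_le_pow _ _ hg
  have e1 : P / (P / g ^ 2 + 1) ≤ g ^ 2 := by
    apply Nat.div_le_of_le_mul
    have := Nat.lt_div_mul_add (a := P) (b := g ^ 2) hg2
    nlinarith
  have e2 : F.card / (g + 1) ≤ g ^ 2 := by
    apply Nat.div_le_of_le_mul
    refine hFc.trans ?_
    nlinarith
  have e3 : F.card * g * (P / g ^ 2) ≤ g ^ 2 * P := by
    have h1 : g ^ 2 * (P / g ^ 2) ≤ P := Nat.mul_div_le _ _
    calc F.card * g * (P / g ^ 2) ≤ g ^ 3 * g * (P / g ^ 2) :=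
          Nat.mul_le_mul_right _ (Nat.mul_le_mul_right _ hFc)
      _ = g ^ 2 * (g ^ 2 * (P / g ^ 2)) := by ring
      _ ≤ g ^ 2 * P := Nat.mul_le_mul_left _ h1
  have e4 : (P + 1) * (P / (P / g ^ 2 + 1) + F.card / (g + 1) + 2) ≤ (P + 1) * (4 * g ^ 2) := by
    apply Nat.mul_le_mul_left
    omega
  refine le_trans ?_ (le_trans hsq ?_)
  · apply Finset.card_le_card_of_injOn (fun z : (ℕ × ℕ) × (ℕ × ℕ) => (z.1.2, z.2.2))
    · rintro ⟨⟨q, p⟩, ⟨q', p'⟩⟩ hz
      have hz := Finset.mem_coe.1 hz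
      rw [Finset.mem_filter, Finset.mem_filter, Finset.mem_product, Finset.mem_product,
        Finset.mem_product, Finset.mem_Ioc, Finset.mem_Ioc, Finset.mem_range,
        Finset.mem_range] at hz
      simp only at hz
      obtain ⟨⟨⟨⟨⟨h1, h2⟩, h3⟩, ⟨h4, h5⟩, h6⟩, h7, h8⟩, h9⟩ := hz
      rw [Finset.mem_coe, Finset.mem_filter, Finset.mem_product, Finset.mem_range,
        Finset.mem_range]
      simp only
      have m1 := hs.1 (show p < q by omega)
      have m2 := hs.1 (show p' < q' by omega)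
      have m3 := hs.1 h7
      have m4 : s p < s p' := by omega
      refine ⟨⟨h3, h6⟩, hs.1.lt_iff_lt.1 m4, ?_⟩
      rw [hF, Finset.mem_image]
      refine ⟨q, Finset.mem_Ioc.2 ⟨h1, h2⟩, ?_⟩
      rw [← h9]
      omega
    · rintro ⟨⟨q, p⟩, ⟨q', p'⟩⟩ hz ⟨⟨r, t⟩, ⟨r', t'⟩⟩ hw heq
      have hz := Finset.mem_coe.1 hz
      have hw := Finset.mem_coe.1 hw
      rw [Finset.mem_filter, Finset.mem_filter, Finset.mem_product, Finset.mem_product,
        Finset.mem_product, Finset.mem_Ioc, Finset.mem_Ioc, Finset.mem_range,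
        Finset.mem_range] at hz hw
      simp only at hz hw
      simp only [Prod.mk.injEq] at heq
      obtain ⟨heq1, heq2⟩ := heq
      subst heq1
      subst heq2
      obtain ⟨⟨⟨⟨⟨h1, h2⟩, h3⟩, ⟨h4, h5⟩, h6⟩, h7, h8⟩, h9⟩ := hz
      obtain ⟨⟨⟨⟨⟨g1, g2⟩, g3⟩, ⟨g4, g5⟩, g6⟩, g7, g8⟩, g9⟩ := hw
      have m1 := hs.1 (show p < q by omega)
      have m2 := hs.1 (show p' < q' by omega)
      have m3 := hs.1 h7
      have n1 := hs.1 (show p < r by omega)
      have n2 := hs.1 (show p' < r' by omega)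
      have n3 := hs.1 g7
      have : q = r := by
        rcases lt_trichotomy q r with h | h | h
        · have := hs.2 m q r hm h
          rw [← h9, ← g9] at this
          omega
        · exact h
        · have := hs.2 m r q hm h
          rw [← h9, ← g9] at this
          omega
      subst this
      have : q' = r' := by omega
      subst this
      rfl
  · have : (P + 1) * (4 * g ^ 2) + g ^ 2 * P ≤ 5 * (P + 1) * g ^ 2 := by nlinarith
    omega

theorem distinct (s : ℕ → ℕ) (hs : Conv s) (P u g : ℕ) (hPu : P ≤ u)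
    (hg : 10 * (s P - s 0) ≤ g * (s (u + 1) - s u)) :
    g ^ 3 * (P + 1) ≤
      2 * (((Ioc u (u + g ^ 3)) ×ˢ (range (P + 1))).image (fun w : ℕ × ℕ => s w.1 - s w.2)).card := by
  classical
  rcases Nat.eq_zero_or_pos g with h0 | h0
  · subst h0
    simp
  set A := (Ioc u (u + g ^ 3)) ×ˢ (range (P + 1)) with hA
  have hAc : A.card = g ^ 3 * (P + 1) := by
    rw [hA, Finset.card_product]
    simp
  have key := card_le_image_add A (fun w : ℕ × ℕ => s w.1 - s w.2) (fun x y => x.1 < y.1) (by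
    rintro ⟨q, p⟩ hx ⟨q', p'⟩ hy hf hne
    rw [hA, Finset.mem_product, Finset.mem_Ioc, Finset.mem_range] at hx hy
    simp only at hx hy hf ⊢
    by_contra hcon
    have hq : q = q' := by omega
    subst hq
    have m1 := hs.1 (show p < q by omega)
    have m2 := hs.1 (show p' < q by omega)
    have : p = p' := hs.1.injective (by omega)
    exact hne (by rw [this]))
  set N := (A ×ˢ A).filter (fun z : (ℕ × ℕ) × (ℕ × ℕ) => z.1.1 < z.2.1 ∧
    s z.1.1 - s z.1.2 = s z.2.1 - s z.2.2) with hN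
  have hsub : N ⊆ (Icc 1 (g / 10)).biUnion (fun m => N.filter (fun z => z.2.1 = z.1.1 + m)) := by
    rintro ⟨⟨q, p⟩, ⟨q', p'⟩⟩ hz
    have hz' := hz
    rw [hN, Finset.mem_filter, hA, Finset.mem_product, Finset.mem_product, Finset.mem_product,
      Finset.mem_Ioc, Finset.mem_Ioc, Finset.mem_range, Finset.mem_range] at hz'
    simp only at hz'
    obtain ⟨⟨⟨⟨h1, h2⟩, h3⟩, ⟨h4, h5⟩, h6⟩, h7, h8⟩ := hz'
    have m1 := hs.1 (show p < q by omega)
    have m2 := hs.1 (show p' < q' by omega)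
    have m3 := hs.1 h7
    have m4 : s p < s p' := by omega
    have m5 := hs.1.monotone (show 0 ≤ p by omega)
    have m6 := hs.1.monotone (show p' ≤ P by omega)
    have m7 := hs.1 (show u < u + 1 by omega)
    have g1 := conv_growth s hs u q (q' - q) h1
    rw [show q + (q' - q) = q' by omega] at g1
    have g2 : 10 * ((q' - q) * (s (u + 1) - s u)) ≤ g * (s (u + 1) - s u) := by
      refine le_trans ?_ hg
      omega
    have g3 : 10 * (q' - q) ≤ g := by
      rw [← mul_assoc] at g2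
      exact Nat.le_of_mul_le_mul_right g2 (by omega)
    rw [Finset.mem_biUnion]
    refine ⟨q' - q, Finset.mem_Icc.2 ⟨by omega, by omega⟩, ?_⟩
    rw [Finset.mem_filter]
    exact ⟨hz, by simp only; omega⟩
  have hNc : N.card ≤ (g / 10) * (5 * (P + 1) * g ^ 2) := by
    refine (Finset.card_le_card hsub).trans (Finset.card_biUnion_le.trans ?_)
    calc _ ≤ ∑ m ∈ Icc 1 (g / 10), 5 * (P + 1) * g ^ 2 := by
          apply Finset.sum_le_sum
          intro m hm
          exact coll_m s hs P u g m hPu h0 (Finset.mem_Icc.1 hm).1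
      _ = (g / 10) * (5 * (P + 1) * g ^ 2) := by simp
  have h2N : 2 * N.card ≤ g ^ 3 * (P + 1) := by
    have h1 : 10 * (g / 10) ≤ g := Nat.mul_div_le _ _
    calc 2 * N.card ≤ 2 * ((g / 10) * (5 * (P + 1) * g ^ 2)) := Nat.mul_le_mul_left _ hNc
      _ = (10 * (g / 10)) * ((P + 1) * g ^ 2) := by ring
      _ ≤ g * ((P + 1) * g ^ 2) := Nat.mul_le_mul_right _ h1
      _ = g ^ 3 * (P + 1) := by ring
  rw [hAc] at key
  omega

theorem cnt_lower {a : ℕ → ℕ} (h : IsHof a) (P u g : ℕ) (hPu : P < u)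
    (hg : 10 * S a P ≤ g * a (u + 1)) :
    g ^ 3 * (P + 1) ≤ 2 * cnt a (S a (u + g ^ 3)) := by
  have h1 := distinct (S a) (conv_S h) P u g hPu.le (by
    rw [S_zero, S_succ, Nat.sub_zero, Nat.add_sub_cancel_left]
    exact hg)
  refine h1.trans (Nat.mul_le_mul_left _ ?_)
  apply card_le_cnt h
  intro t ht
  rw [Finset.mem_image] at ht
  obtain ⟨⟨q, p⟩, hw, rfl⟩ := ht
  rw [Finset.mem_product, Finset.mem_Ioc, Finset.mem_range] at hw
  simp only at hw ⊢
  obtain ⟨⟨h2, h3⟩, h4⟩ := hw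
  refine ⟨?_, window h p q (by omega)⟩
  have := (S_strictMono h).monotone h3
  omega

end Pool.Agent.Helper12.HofU
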