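import Mathlib
import Pool.Agent.Helper12.HofU.Api

/-! HU-4: dyadic blocks.

`dyadic_step`: let `i = cnt a (z/4)`, `j = cnt a (z/2)`, `i ≤ j`. If `j ≤ i + 1` there is nothing to
prove. Otherwise the `j - i - 1` numbers `a q + a (q+1)`, `i + 1 ≤ q ≤ j - 1`, are distinct (strictly
increasing in `q`) terms (they are sums of two consecutive terms, `window h (q-1) (q+1)`) and they lie in
`(z/2, z]`: `a q ≥ z/4 + 1`, `a (q+1) ≥ z/4 + 2` and `2 (z/4) + 3 > z/2` (natural divisions), and
`a q + a (q+1) ≤ 2 a (q+1) ≤ 2 (z/2) ≤ z`. So with `card_le_cnt`-like counting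
(`T = image a (Icc 1 (cnt (z/2)))` together with these sums, disjoint, all are terms `≤ z`),
`cnt a (z/2) + (j - i - 1) ≤ cnt a z`.

`dyadic`: let `L = Nat.log 2 y` and `D i = cnt a (y/2^i) - cnt a (y/2^(i+1))`. By `dyadic_step` applied to
`z = y/2^i` (`y/2^i/2 = y/2^(i+1)`, `Nat.div_div_eq_div_mul`) `D (i+1) ≤ D i + 1`, so
`D i ≤ D 0 + i`. Since `y / 2^(L+1) = 0` and `cnt a 0 = 0`,
`cnt a y = Sum_{i ≤ L} D i ≤ (L+1) (D 0 + L)`. (By induction on `k`:
`cnt a y ≤ cnt a (y/2^k) + k * (D 0 + L)` for `k ≤ L + 1`.) -/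

set_option autoImplicit false

namespace Pool.Agent.Helper12.HofU

open Finset Pool.Agent.Helper12.Hof

lemma dyadic_step {a : ℕ → ℕ} (h : IsHof a) (z : ℕ) :
    2 * cnt a (z / 2) ≤ cnt a z + cnt a (z / 4) + 1 := by
  classical
  set i := cnt a (z / 4) with hi
  set j := cnt a (z / 2) with hj
  have hjz : j ≤ cnt a z := cnt_mono h (Nat.div_le_self z 2)
  rcases Nat.lt_or_ge (i + 1) j with hij | hij
  swap
  · omega
  have hlow : ∀ q, i + 1 ≤ q → z / 4 + 1 ≤ a q := by
    intro q hq
    exact (lt_iff h (by omega)).1 (by omega)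
  have hup : ∀ q, 1 ≤ q → q ≤ j → a q ≤ z / 2 := by
    intro q hq hqj
    exact (cnt_le_iff h hq).1 hqj
  set T1 := (Finset.Icc 1 j).image a with hT1
  set T2 := (Finset.Icc (i + 1) (j - 1)).image (fun q => a q + a (q + 1)) with hT2
  have hc1 : T1.card = j := by
    rw [hT1, Finset.card_image_of_injOn]
    · simp
    · intro x hx y hy hxy
      rw [Finset.mem_coe, Finset.mem_Icc] at hx hy
      rcases Nat.lt_trichotomy x y with h1 | h1 | h1
      · have := lt_of_lt h hx.1 h1
        omega
      · exact h1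
      · have := lt_of_lt h hy.1 h1
        omega
  have hc2 : T2.card = j - 1 - i := by
    rw [hT2, Finset.card_image_of_injOn]
    · rw [Nat.card_Icc]
      omega
    · intro x hx y hy hxy
      rw [Finset.mem_coe, Finset.mem_Icc] at hx hy
      simp only at hxy
      rcases Nat.lt_trichotomy x y with h1 | h1 | h1
      · have h2 := lt_of_lt h (show 1 ≤ x by omega) h1
        have h3 := lt_of_lt h (show 1 ≤ x + 1 by omega) (show x + 1 < y + 1 by omega)
        omega
      · exact h1
      · have h2 := lt_of_lt h (show 1 ≤ y by omega) h1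
        have h3 := lt_of_lt h (show 1 ≤ y + 1 by omega) (show y + 1 < x + 1 by omega)
        omega
  have hdis : Disjoint T1 T2 := by
    rw [Finset.disjoint_left]
    intro t ht1 ht2
    rw [hT1, Finset.mem_image] at ht1
    rw [hT2, Finset.mem_image] at ht2
    obtain ⟨k, hk, rfl⟩ := ht1
    obtain ⟨q, hq, hqk⟩ := ht2
    rw [Finset.mem_Icc] at hk hq
    have h1 := hup k hk.1 hk.2
    have h2 := hlow q hq.1
    have h3 := lt_of_lt h (show 1 ≤ q by omega) (show q < q + 1 by omega)
    omega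
  have hcard : (T1 ∪ T2).card = j + (j - 1 - i) := by
    rw [Finset.card_union_of_disjoint hdis, hc1, hc2]
  have hle := card_le_cnt h (T1 ∪ T2) z (by
    intro t ht
    rw [Finset.mem_union] at ht
    rcases ht with ht | ht
    · rw [hT1, Finset.mem_image] at ht
      obtain ⟨k, hk, rfl⟩ := ht
      rw [Finset.mem_Icc] at hk
      have h1 := hup k hk.1 hk.2
      exact ⟨by omega, k, hk.1, rfl⟩
    · rw [hT2, Finset.mem_image] at ht
      obtain ⟨q, hq, rfl⟩ := ht
      rw [Finset.mem_Icc] at hq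
      have h1 := hup (q + 1) (by omega) (by omega)
      have h2 := lt_of_lt h (show 1 ≤ q by omega) (show q < q + 1 by omega)
      refine ⟨by omega, ?_⟩
      obtain ⟨k, hk, hk2⟩ := window h (q - 1) (q + 1) (by omega)
      refine ⟨k, hk, ?_⟩
      rw [hk2]
      have h3 := S_succ a q
      have h4 := S_succ a (q - 1)
      rw [show q - 1 + 1 = q by omega] at h4
      omega)
  rw [hcard] at hle
  omega

theorem dyadic {a : ℕ → ℕ} (h : IsHof a) (y : ℕ) :
    cnt a y ≤ (Nat.log 2 y + 1) * (cnt a y - cnt a (y / 2) + Nat.log 2 y) := by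
  have hm : cnt a (y / 2) ≤ cnt a y := cnt_mono h (Nat.div_le_self y 2)
  set D := cnt a y - cnt a (y / 2) with hD
  have hstep : ∀ i, cnt a (y / 2 ^ i) ≤ cnt a (y / 2 ^ (i + 1)) + D + i := by
    intro i
    induction i with
    | zero =>
      rw [pow_zero, Nat.div_one, zero_add, pow_one]
      omega
    | succ i ih =>
      have h1 := dyadic_step h (y / 2 ^ i)
      have e1 : y / 2 ^ i / 2 = y / 2 ^ (i + 1) := by
        rw [Nat.div_div_eq_div_mul, ← pow_succ]
      have e2 : y / 2 ^ i / 4 = y / 2 ^ (i + 1 + 1) := by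
        rw [Nat.div_div_eq_div_mul, pow_succ, pow_succ, mul_assoc]
        norm_num
      rw [e1, e2] at h1
      omega
  have hind : ∀ k, k ≤ Nat.log 2 y + 1 → cnt a y ≤ cnt a (y / 2 ^ k) + k * (D + Nat.log 2 y) := by
    intro k
    induction k with
    | zero =>
      intro _
      rw [pow_zero, Nat.div_one, zero_mul, add_zero]
    | succ k ih =>
      intro hk
      have h1 := ih (by omega)
      have h2 := hstep k
      rw [Nat.succ_mul]
      omega
  have h1 := hind (Nat.log 2 y + 1) le_rfl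
  have h2 : y / 2 ^ (Nat.log 2 y + 1) = 0 := Nat.div_eq_of_lt (Nat.lt_pow_succ_log_self (by norm_num) y)
  rw [h2, cnt_zero, zero_add] at h1
  exact h1

end Pool.Agent.Helper12.HofU
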