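import Mathlib

/-! HU-9 (Mathlib only): the real inequalities.

`log_core`: multiply the claim by `1 + c > 0`. From `h3`, `h4`:
`lP ≥ lk + c lz ≥ lk + c (lg + ly - log 80 - lP)`, so
`(1+c) lP ≥ lk + c lg + c ly - c log 80`. Next, by `h1` and `h2` (times `c`),
`(1+c) (lk + c lx) ≤ (1+c) lk + (1+c) c (log 4 + ly + ln)` and `c lk + c^2 ly ≤ c ln`, so
`(1+c)(lk + c lx) ≤ lk + c ly + [c ln + (1+c) c ln] + (1+c) c log 4`. So it is enough that
`(2 c + c^2) ln + (1+c) c log 4 + (1+c) log 2 + c log 80 ≤ (3 + 4 c) lg`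
(`3 (1+c) + c = 3 + 4c`), and this follows from `h5`, as `c ≤ 1` and
`2 log 4 + 2 log 2 + log 80 = log (16 * 4 * 80) = log 5120`.

`growth`: put `η = 1 - (2/3) c - c^2 > 0`. Since `Nat.log 2 y ≤ log y / log 2 ≤ 2 log y`, everything
follows from `log (log y) = o(log y)`: the first statement says (as `n ≥ κ₀ y^(2/5)`) that
`log n ≥ (2/5) log y - K` implies `(2c+c^2) log n + log 5120 ≤ ((3+4c)/3) (log n - log (32 (L+1)))`, i.e.
`log 5120 + ((3+4c)/3) log (32 (L+1)) ≤ η log n`, as `(3+4c)/3 - 2c - c^2 = 1 - (2/3)c - c^2 = η`.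
Here `l` plays the role of `log n`. -/

set_option autoImplicit false

namespace Pool.Agent.Helper12.HofU

lemma log_core (c lk lx ly ln lg lz lP : ℝ) (hc0 : 0 < c) (hc1 : c ≤ 1)
    (h1 : lx ≤ Real.log 4 + ly + ln) (h2 : lk + c * ly ≤ ln) (h3 : lk + c * lz ≤ lP)
    (h4 : lg + ly ≤ Real.log 80 + lz + lP)
    (h5 : (2 * c + c ^ 2) * ln + Real.log 5120 ≤ (3 + 4 * c) * lg) :
    lk + c * lx ≤ 3 * lg + lP - Real.log 2 := by
  have e : Real.log 5120 = 2 * Real.log 4 + 2 * Real.log 2 + Real.log 80 := by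
    have h6 : (5120 : ℝ) = 4 ^ 2 * 2 ^ 2 * 80 := by norm_num
    rw [h6, Real.log_mul (by norm_num) (by norm_num), Real.log_mul (by norm_num) (by norm_num),
      Real.log_pow, Real.log_pow]
    push_cast
    ring
  have l2 : 0 ≤ Real.log 2 := Real.log_nonneg (by norm_num)
  have l4 : 0 ≤ Real.log 4 := Real.log_nonneg (by norm_num)
  have l80 : 0 ≤ Real.log 80 := Real.log_nonneg (by norm_num)
  rw [e] at h5
  generalize Real.log 2 = L2 at *
  generalize Real.log 4 = L4 at *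
  generalize Real.log 80 = L80 at *
  have f1 : (1 + c) * c * lx ≤ (1 + c) * c * (L4 + ly + ln) :=
    mul_le_mul_of_nonneg_left h1 (by positivity)
  have f2 : c * (lk + c * ly) ≤ c * ln := mul_le_mul_of_nonneg_left h2 hc0.le
  have f4 : c * (lg + ly) ≤ c * (L80 + lz + lP) := mul_le_mul_of_nonneg_left h4 hc0.le
  have f6 : (1 + c) * c * L4 ≤ 2 * L4 := mul_le_mul_of_nonneg_right (by nlinarith) l4
  have f7 : c * L80 ≤ 1 * L80 := mul_le_mul_of_nonneg_right hc1 l80
  have f8 : (1 + c) * L2 ≤ 2 * L2 := mul_le_mul_of_nonneg_right (by linarith) l2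
  have hpos : 0 < 1 + c := by linarith
  apply le_of_mul_le_mul_left _ hpos
  nlinarith [f1, f2, f4, f6, f7, f8, h3, h5]

lemma growth (c K : ℝ) (hc0 : 0 < c) (hc : c ^ 2 + 2 / 3 * c < 1) :
    ∃ y₀ : ℕ, ∀ y : ℕ, y₀ ≤ y → ∀ l : ℝ, (2 / 5 : ℝ) * Real.log y ≤ l + K →
      (2 * c + c ^ 2) * l + Real.log 5120 ≤
        (3 + 4 * c) / 3 * (l - Real.log (32 * ((Nat.log 2 y : ℝ) + 1))) ∧
      Real.log (4 * ((Nat.log 2 y : ℝ) + 1) ^ 2) ≤ l := by
  set a : ℝ := (3 + 4 * c) / 3 with ha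
  set η : ℝ := 1 - 2 / 3 * c - c ^ 2 with hη
  have hη0 : 0 < η := by rw [hη]; linarith
  have ha0 : 0 < a := by rw [ha]; positivity
  have hηa : a - (2 * c + c ^ 2) = η := by rw [ha, hη]; ring
  have hz : ∀ᶠ z : ℝ in Filter.atTop, a * Real.log z ≤ η / 5 * z ∧ 2 * Real.log z ≤ 1 / 5 * z ∧
      1 ≤ z ∧ Real.log 5120 + a * Real.log 96 + η * K ≤ η / 5 * z ∧ Real.log 36 + K ≤ 1 / 5 * z := by
    have h1 := (Real.isLittleO_log_id_atTop.const_mul_left a).def
      (show (0 : ℝ) < η / 5 by positivity)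
    have h2 := (Real.isLittleO_log_id_atTop.const_mul_left 2).def
      (show (0 : ℝ) < 1 / 5 by positivity)
    have h3 : ∀ᶠ z : ℝ in Filter.atTop, (Real.log 5120 + a * Real.log 96 + η * K) / (η / 5) ≤ z :=
      Filter.eventually_ge_atTop _
    have h4 : ∀ᶠ z : ℝ in Filter.atTop, (Real.log 36 + K) / (1 / 5) ≤ z :=
      Filter.eventually_ge_atTop _
    filter_upwards [h1, h2, h3, h4, Filter.eventually_ge_atTop 1] with z z1 z2 z3 z4 z5
    have zn : ‖id z‖ = z := by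
      rw [id, Real.norm_eq_abs, abs_of_nonneg (by linarith)]
    rw [zn] at z1 z2
    refine ⟨(le_abs_self _).trans z1, (le_abs_self _).trans z2, z5, ?_, ?_⟩
    · rw [div_le_iff₀ (by positivity)] at z3
      linarith
    · rw [div_le_iff₀ (by norm_num)] at z4
      linarith
  have hy := (Real.tendsto_log_atTop.comp tendsto_natCast_atTop_atTop).eventually hz
  obtain ⟨y₀, hy₀⟩ := Filter.eventually_atTop.mp hy
  refine ⟨max y₀ 1, fun y hyy l hl => ?_⟩
  obtain ⟨z1, z2, z3, z4, z5⟩ := hy₀ y (le_trans (le_max_left _ _) hyy)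
  have hy1 : 1 ≤ y := le_trans (le_max_right _ _) hyy
  have hy1' : (1 : ℝ) ≤ (y : ℝ) := by exact_mod_cast hy1
  simp only [Function.comp_apply] at z1 z2 z3 z4 z5
  have hL0 : (0 : ℝ) ≤ (Nat.log 2 y : ℝ) := Nat.cast_nonneg _
  have hL : (Nat.log 2 y : ℝ) ≤ 2 * Real.log y := by
    have h1 : 2 ^ Nat.log 2 y ≤ y := Nat.pow_log_le_self 2 (by omega)
    have h2 : ((2 : ℝ) ^ Nat.log 2 y) ≤ (y : ℝ) := by exact_mod_cast h1
    have h3 := Real.log_le_log (by positivity) h2
    rw [Real.log_pow] at h3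
    have h4 := Real.log_two_gt_d9
    nlinarith
  have hL1 : (Nat.log 2 y : ℝ) + 1 ≤ 3 * Real.log y := by linarith
  generalize (Nat.log 2 y : ℝ) = L at *
  have g1 : Real.log (32 * (L + 1)) ≤ Real.log 96 + Real.log (Real.log y) := by
    rw [← Real.log_mul (by norm_num) (by linarith)]
    apply Real.log_le_log (by positivity)
    linarith
  have g2 : Real.log (4 * (L + 1) ^ 2) ≤ Real.log 36 + 2 * Real.log (Real.log y) := by
    have h5 : 2 * Real.log (Real.log y) = Real.log ((Real.log y) ^ 2) := by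
      rw [Real.log_pow]; push_cast; ring
    rw [h5, ← Real.log_mul (by norm_num) (by positivity)]
    apply Real.log_le_log (by positivity)
    nlinarith
  constructor
  · have h6 : a * Real.log (32 * (L + 1)) ≤ a * (Real.log 96 + Real.log (Real.log y)) :=
      mul_le_mul_of_nonneg_left g1 ha0.le
    have h7 : η * (2 / 5 * Real.log y) ≤ η * (l + K) := mul_le_mul_of_nonneg_left hl hη0.le
    have h8 : a * l - (2 * c + c ^ 2) * l = η * l := by rw [← hηa]; ring
    nlinarith [h6, h7, h8, z1, z4]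
  · linarith

end Pool.Agent.Helper12.HofU
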