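import Mathlib
import Pool.Agent.Helper12.HofU.Distinct

/-! HU-7: the recursion step (combinatorial form).

Proof. Let `n = cnt a y` (so `n ≥ 2 g^3 ≥ 2`, `y ≥ 1` by `cnt_zero`), `u = n - g^3`, `P = cnt a z`.
* `u + 1 > cnt a (y/2)`, so `y/2 < a (u+1)` by `lt_iff`, hence `y < 2 a (u+1)`.
* `S a P ≤ z * P` (`S_cnt_le`), so `20 S a P ≤ g y ≤ 2 g a (u+1)` and `10 S a P ≤ g a (u+1)`.
* `P < u`: otherwise `S a u ≤ S a P`. With `i = cnt a (y/2)`, `a (i+1) ≥ y/2 + 1` (`lt_iff`) and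
  `u - i ≥ g^3 ≥ g` the lemma `S_ge` gives `S a u ≥ g (y/2 + 1)`, so
  `20 S a u ≥ 20 g (y/2+1) ≥ 10 g (y + 1) > g y ≥ 20 S a P`, a contradiction.
* `cnt_lower` gives `g^3 (P+1) ≤ 2 cnt a (S a (u + g^3)) = 2 cnt a (S a n)`, and
  `S a n ≤ y n` by `S_cnt_le`; use `cnt_mono`. -/

set_option autoImplicit false

namespace Pool.Agent.Helper12.HofU

open Finset Pool.Agent.Helper12.Hof

theorem stepDown {a : ℕ → ℕ} (h : IsHof a) (y g z : ℕ) (hg : 1 ≤ g)
    (hD : cnt a (y / 2) + 2 * g ^ 3 ≤ cnt a y) (hz : 20 * (z * cnt a z) ≤ g * y) :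
    g ^ 3 * (cnt a z + 1) ≤ 2 * cnt a (y * cnt a y) := by
  have hg3 : g ≤ g ^ 3 := by
    calc g = g ^ 1 := (pow_one g).symm
      _ ≤ g ^ 3 := Nat.pow_le_pow_right hg (by norm_num)
  obtain ⟨G, hG⟩ : ∃ G, G = g ^ 3 := ⟨_, rfl⟩
  rw [← hG] at hD hg3 ⊢
  obtain ⟨u, hu⟩ : ∃ u, cnt a y = u + G := ⟨cnt a y - G, by omega⟩
  have hiu : cnt a (y / 2) + G ≤ u := by omega
  have h1 : y / 2 < a (u + 1) := (lt_iff h (by omega)).1 (by omega)
  have h2 : y / 2 < a (cnt a (y / 2) + 1) := (lt_iff h (by omega)).1 (by omega)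
  have hS : S a (cnt a z) ≤ z * cnt a z := S_cnt_le h z
  have hy : y < 2 * a (u + 1) := by omega
  have h20 : 20 * S a (cnt a z) ≤ g * y := by omega
  have h10 : 10 * S a (cnt a z) ≤ g * a (u + 1) := by
    have : g * y ≤ g * (2 * a (u + 1)) := Nat.mul_le_mul_left g hy.le
    have e : g * (2 * a (u + 1)) = 2 * (g * a (u + 1)) := by ring
    omega
  have hP : cnt a z < u := by
    by_contra hc
    have hc' : u ≤ cnt a z := not_lt.1 hc
    have hm : S a u ≤ S a (cnt a z) := (S_strictMono h).monotone hc'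
    have hge := S_ge h (cnt a (y / 2)) u (y / 2 + 1) (by omega) h2
    have hge' : g * (y / 2 + 1) ≤ S a u := by
      refine le_trans (Nat.mul_le_mul_right _ ?_) hge
      omega
    have hlt : g * y < 20 * (g * (y / 2 + 1)) := by
      have : y < 20 * (y / 2 + 1) := by omega
      calc g * y < g * (20 * (y / 2 + 1)) := Nat.mul_lt_mul_of_pos_left this (by omega)
        _ = 20 * (g * (y / 2 + 1)) := by ring
    omega
  have hc := cnt_lower h (cnt a z) u g hP h10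
  rw [← hG, ← hu] at hc
  refine hc.trans (Nat.mul_le_mul_left 2 (cnt_mono h ?_))
  exact S_cnt_le h y

end Pool.Agent.Helper12.HofU
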