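import Mathlib
import Pool.Agent.Helper12.HofU.StepDown
import Pool.Agent.Helper12.HofU.Dyadic
import Pool.Agent.Helper12.HofU.BaseB
import Pool.Agent.Helper12.HofU.LogCore

/-! HU-10: the counting function is at least `κ x^c` for every `c` with `c^2 + (2/3) c < 1`.

Proof. `c ≤ 1` (otherwise `c^2 > 1`). Let `K` be as in `baseB`, `y₀` as in `growth` for `(c, K)`, and put
`y₁ = max y₀ 20`, `x₀ = 4 y₁^2 + 1`, `κ = 1/x₀`, `lk = log κ = - log x₀`. We show
`lk + c log x ≤ log (cnt a x)` for all `x ≥ 1` by strong induction on `x`.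

* `x < x₀`: `c log x ≤ log x ≤ log x₀`, and `log (cnt a x) ≥ 0`.
* `x ≥ x₀`: by `balance` there is `y ≥ 1` with `y n ≤ x < 4 (y n)`, `n = cnt a y ≤ y`. As
  `4 y₁^2 < x < 4 y^2`, `y > y₁`. Let `L = Nat.log 2 y`. By `baseB` `(2/5) log y ≤ log n + K`, so
  `growth` with `l = log n` gives
  (i) `(2c+c^2) log n + log 5120 ≤ ((3+4c)/3) (log n - log (32 (L+1)))`, (ii) `4 (L+1)^2 ≤ n`
  (compare logarithms).
  Let `D = n - cnt a (y/2)`. By `dyadic` `n ≤ (L+1)(D+L)`. By (ii) `(L+1) L ≤ (L+1)^2 ≤ n/4`, so
  `(3/4) n ≤ (L+1) D`, hence `n ≤ 2 (L+1) D`, and `D ≥ 2` as `(L+1) D ≥ (3/4) 4 (L+1)^2 = 3 (L+1)^2`.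
  `cube`: `g ≥ 1`, `2 g^3 ≤ D < 16 g^3`. So `n ≤ 32 (L+1) g^3`, i.e.
  `log n - log (32 (L+1)) ≤ 3 log g`, and (i) gives
  `(2c+c^2) log n + log 5120 ≤ (3+4c) log g`.
  `balance` for `X = g*y/20 ≥ 1` (`y ≥ 20`): `z ≥ 1`, `z P ≤ X < 4 (z P)`, `P = cnt a z`. Then
  `20 (z P) ≤ g y` and `g y < 20 (X+1) ≤ 20 * 4 (z P)`.
  `stepDown` (`cnt a (y/2) + 2 g^3 ≤ cnt a y` by the choice of `g`) gives
  `g^3 (P+1) ≤ 2 cnt a (y n) ≤ 2 cnt a x`, so `3 log g + log P - log 2 ≤ log (cnt a x)`.
  The induction hypothesis holds for `y` (`y < x`, since `n ≥ 4`) and for `z`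
  (`z ≤ z P ≤ g y / 20 < x`, since `g ≤ g^3 ≤ n` and `n y ≤ x`). Now `log_core` with `lx = log x`,
  `ly = log y`, `ln = log n`, `lg = log g`, `lz = log z`, `lP = log P` gives the claim. -/

set_option autoImplicit false

namespace Pool.Agent.Helper12.HofU

open Finset Pool.Agent.Helper12.Hof

theorem mainU {a : ℕ → ℕ} (h : IsHof a) (c : ℝ) (hc0 : 0 < c) (hc : c ^ 2 + 2 / 3 * c < 1) :
    ∃ κ : ℝ, 0 < κ ∧ ∀ x : ℕ, 1 ≤ x → κ * (x : ℝ) ^ c ≤ (cnt a x : ℝ) := by
  have hc1 : c ≤ 1 := by nlinarith
  obtain ⟨K, hK⟩ := baseB h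
  obtain ⟨y₀, hy₀⟩ := growth c K hc0 hc
  set y₁ := max y₀ 20 with hy₁
  have hy₁0 : y₀ ≤ y₁ := le_max_left _ _
  have hy₁20 : 20 ≤ y₁ := le_max_right _ _
  set x₀ : ℕ := 4 * y₁ ^ 2 + 1 with hx₀
  have hx₀1 : 1 ≤ x₀ := Nat.succ_pos _
  have hx₀R : (1 : ℝ) ≤ x₀ := by exact_mod_cast hx₀1
  have hx₀pos : (0 : ℝ) < x₀ := by linarith
  set lk : ℝ := -Real.log x₀ with hlk
  have claim : ∀ x : ℕ, 1 ≤ x → lk + c * Real.log x ≤ Real.log (cnt a x) := by
    intro x
    induction x using Nat.strong_induction_on with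
    | _ x ih =>
      intro hx
      have hxR : (1 : ℝ) ≤ x := by exact_mod_cast hx
      have hcx : (1 : ℝ) ≤ cnt a x := by exact_mod_cast cnt_pos h hx
      rcases Nat.lt_or_ge x x₀ with hlt | hge
      · have h1 : Real.log x ≤ Real.log x₀ :=
          Real.log_le_log (by linarith) (by exact_mod_cast hlt.le)
        have h2 : 0 ≤ Real.log x := Real.log_nonneg hxR
        have h3 : 0 ≤ Real.log (cnt a x) := Real.log_nonneg hcx
        have h4 : c * Real.log x ≤ 1 * Real.log x := mul_le_mul_of_nonneg_right hc1 h2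
        linarith
      · obtain ⟨y, hy1, hyn, hyn4⟩ := balance h x hx
        set n := cnt a y with hn
        have hny : n ≤ y := cnt_le_self a y
        have hn1 : 1 ≤ n := cnt_pos h hy1
        have hyy : y₁ < y := by
          by_contra hcon
          push Not at hcon
          have h1 : y * n ≤ y₁ * y₁ := Nat.mul_le_mul hcon (hny.trans hcon)
          have h2 : y₁ ^ 2 = y₁ * y₁ := sq y₁
          omega
        set L := Nat.log 2 y with hL
        obtain ⟨hi, hii⟩ := hy₀ y (by omega) (Real.log n) (hK y hy1)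
        rw [← hL] at hi hii
        have hnR : (1 : ℝ) ≤ n := by exact_mod_cast hn1
        have hn0 : (0 : ℝ) < n := by linarith
        have hL0 : (0 : ℝ) < (L : ℝ) + 1 := by positivity
        have hiiR : 4 * ((L : ℝ) + 1) ^ 2 ≤ n :=
          (Real.log_le_log_iff (by positivity) hn0).1 hii
        have hiiN : 4 * (L + 1) ^ 2 ≤ n := by exact_mod_cast hiiR
        obtain ⟨D, hD⟩ : ∃ D, D = n - cnt a (y / 2) := ⟨_, rfl⟩
        have hdy := dyadic h y
        rw [← hn, ← hD, ← hL] at hdy
        have hDn : D ≤ n := by omega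
        have hLL : 4 * ((L + 1) * L) ≤ n := by
          refine le_trans ?_ hiiN
          have : (L + 1) * L ≤ (L + 1) ^ 2 := by nlinarith
          omega
        have hn3 : 3 * n ≤ 4 * ((L + 1) * D) := by
          have h1 : (L + 1) * (D + L) = (L + 1) * D + (L + 1) * L := by ring
          omega
        have hn2 : n ≤ 2 * ((L + 1) * D) := by omega
        have hD3 : 3 * (L + 1) ≤ D := by
          by_contra hcon
          push Not at hcon
          have h1 : (L + 1) * D < (L + 1) * (3 * (L + 1)) := Nat.mul_lt_mul_of_pos_left hcon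
            (Nat.succ_pos L)
          have h2 : (L + 1) * (3 * (L + 1)) = 3 * (L + 1) ^ 2 := by ring
          omega
        obtain ⟨g, hg1, hg2, hg3⟩ := cube D (by omega)
        have hg3' : g ≤ g ^ 3 := Nat.le_self_pow (by norm_num) g
        have hgn : g ≤ n := by omega
        have hgR : (1 : ℝ) ≤ g := by exact_mod_cast hg1
        have hng : n ≤ 32 * (L + 1) * g ^ 3 := by
          have h1 : (L + 1) * D ≤ (L + 1) * (16 * g ^ 3) := Nat.mul_le_mul_left _ hg3.le
          have h2 : 32 * (L + 1) * g ^ 3 = 2 * ((L + 1) * (16 * g ^ 3)) := by ring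
          omega
        have hlog : Real.log n - Real.log (32 * ((L : ℝ) + 1)) ≤ 3 * Real.log g := by
          have h1 : (n : ℝ) ≤ 32 * ((L : ℝ) + 1) * (g : ℝ) ^ 3 := by exact_mod_cast hng
          have h2 := Real.log_le_log hn0 h1
          rw [Real.log_mul (by positivity) (by positivity), Real.log_pow] at h2
          push_cast at h2
          linarith
        have h5 : (2 * c + c ^ 2) * Real.log n + Real.log 5120 ≤ (3 + 4 * c) * Real.log g := by
          refine hi.trans ?_
          have h1 : (3 + 4 * c) / 3 * (Real.log n - Real.log (32 * ((L : ℝ) + 1))) ≤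
              (3 + 4 * c) / 3 * (3 * Real.log g) :=
            mul_le_mul_of_nonneg_left hlog (by positivity)
          linarith
        have hX1 : 1 ≤ g * y / 20 := by
          rw [Nat.le_div_iff_mul_le (by norm_num)]
          nlinarith
        obtain ⟨z, hz1, hzP, hzP4⟩ := balance h (g * y / 20) hX1
        set P := cnt a z with hP
        have hP1 : 1 ≤ P := cnt_pos h hz1
        have hz20 : 20 * (z * P) ≤ g * y := by
          have := Nat.div_mul_le_self (g * y) 20
          omega
        have hz80 : g * y ≤ 80 * (z * P) := by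
          have := Nat.lt_div_mul_add (a := g * y) (b := 20) (by norm_num)
          omega
        have hstep := stepDown h y g z hg1 (by omega) hz20
        rw [← hn, ← hP] at hstep
        have hmono : cnt a (y * n) ≤ cnt a x := cnt_mono h hyn
        have hfin : g ^ 3 * P ≤ 2 * cnt a x := by
          have h1 : g ^ 3 * P ≤ g ^ 3 * (P + 1) := Nat.mul_le_mul_left _ (Nat.le_succ P)
          omega
        have hn4 : 4 ≤ n := by nlinarith
        have hyx : y < x := by nlinarith
        have hzx : z < x := by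
          have h1 : z * 1 ≤ z * P := Nat.mul_le_mul_left _ hP1
          have h2 : g * y ≤ n * y := Nat.mul_le_mul_right _ hgn
          have h3 : n * y = y * n := mul_comm _ _
          omega
        have hihy := ih y hyx hy1
        have hihz := ih z hzx hz1
        have hyR : (1 : ℝ) ≤ y := by exact_mod_cast hy1
        have hzR : (1 : ℝ) ≤ z := by exact_mod_cast hz1
        have hPR : (1 : ℝ) ≤ P := by exact_mod_cast hP1
        have hy0' : (0 : ℝ) < y := by linarith
        have hz0' : (0 : ℝ) < z := by linarith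
        have hP0' : (0 : ℝ) < P := by linarith
        have hg0' : (0 : ℝ) < g := by linarith
        have h1 : Real.log x ≤ Real.log 4 + Real.log y + Real.log n := by
          have h6 : (x : ℝ) ≤ 4 * ((y : ℝ) * n) := by exact_mod_cast hyn4.le
          have h7 := Real.log_le_log (by linarith) h6
          rw [Real.log_mul (by norm_num) (by positivity),
            Real.log_mul hy0'.ne' hn0.ne'] at h7
          linarith
        have h4 : Real.log g + Real.log y ≤ Real.log 80 + Real.log z + Real.log P := by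
          have h6 : (g : ℝ) * y ≤ 80 * ((z : ℝ) * P) := by exact_mod_cast hz80
          have h7 := Real.log_le_log (by positivity) h6
          rw [Real.log_mul hg0'.ne' hy0'.ne', Real.log_mul (by norm_num) (by positivity),
            Real.log_mul hz0'.ne' hP0'.ne'] at h7
          linarith
        have hcore := log_core c lk (Real.log x) (Real.log y) (Real.log n) (Real.log g)
          (Real.log z) (Real.log P) hc0 hc1 h1 hihy hihz h4 h5
        refine hcore.trans ?_
        have h6 : (g : ℝ) ^ 3 * P ≤ 2 * cnt a x := by exact_mod_cast hfin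
        have h7 := Real.log_le_log (by positivity) h6
        rw [Real.log_mul (by positivity) hP0'.ne', Real.log_pow,
          Real.log_mul (by norm_num) (by linarith)] at h7
        push_cast at h7
        linarith
  refine ⟨1 / x₀, by positivity, fun x hx => ?_⟩
  have hxR : (1 : ℝ) ≤ x := by exact_mod_cast hx
  have hx0 : (0 : ℝ) < x := by linarith
  have hcx : (1 : ℝ) ≤ cnt a x := by exact_mod_cast cnt_pos h hx
  have h1 := claim x hx
  have h2 := Real.exp_le_exp.2 h1
  rw [Real.exp_log (by linarith), Real.exp_add, hlk, Real.exp_neg, Real.exp_log hx₀pos] at h2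
  rw [Real.rpow_def_of_pos hx0, mul_comm (Real.log (x : ℝ)) c, one_div]
  exact h2

end Pool.Agent.Helper12.HofU
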