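import Mathlib
import Pool.Agent.Helper12.HofU.MainU

/-! HU-11: the upper bound for `a n`.

Proof. `θ = (1 + √10)/3 > 1`, `c = 1/(θ + ε)`, `0 < c < 1/θ`. As `1/θ = (√10 - 1)/3` satisfies
`(1/θ)^2 + (2/3)(1/θ) = 1` (equivalently `1 + (2/3) θ = θ^2`), `c^2 + (2/3) c < 1`: multiply by
`(θ+ε)^2`: `1 + (2/3)(θ+ε) < (θ+ε)^2`, which follows from `1 + (2/3)θ = θ^2` and `θ > 1`. Let `κ` be as
in `mainU`. With `x = a n`, `cnt a (a n) = n` (`cnt_self`): `κ (a n)^c ≤ n`, so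
`a n = ((a n)^c)^(1/c) ≤ (n/κ)^(θ+ε) = κ^(-(θ+ε)) n^(θ+ε)`. -/

set_option autoImplicit false

namespace Pool.Agent.Helper12.HofU

open Finset Pool.Agent.Helper12.Hof

theorem finalU {a : ℕ → ℕ} (h : IsHof a) (ε : ℝ) (hε : 0 < ε) :
    ∃ C : ℝ, 0 < C ∧ ∀ n : ℕ, 1 ≤ n → (a n : ℝ) ≤ C * (n : ℝ) ^ ((1 + Real.sqrt 10) / 3 + ε) := by
  set s := Real.sqrt 10 with hs
  have hs2 : s ^ 2 = 10 := Real.sq_sqrt (by norm_num)
  have hs0 : 0 ≤ s := Real.sqrt_nonneg _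
  have hs3 : 3 < s := by nlinarith
  set θ : ℝ := (1 + s) / 3 with hθ
  have hθ1 : 1 < θ := by rw [hθ]; linarith
  have hθ2 : 1 + 2 / 3 * θ = θ ^ 2 := by rw [hθ]; nlinarith
  set t : ℝ := θ + ε with ht
  have ht1 : 1 < t := by rw [ht]; linarith
  have ht0 : 0 < t := by linarith
  have hkey : 1 + 2 / 3 * t < t ^ 2 := by rw [ht]; nlinarith
  have hc0 : (0 : ℝ) < 1 / t := by positivity
  have hc : (1 / t) ^ 2 + 2 / 3 * (1 / t) < 1 := by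
    have h1 : (1 / t) ^ 2 + 2 / 3 * (1 / t) = (1 + 2 / 3 * t) / t ^ 2 := by
      field_simp
    rw [h1, div_lt_one (by positivity)]
    exact hkey
  obtain ⟨κ, hκ, hmain⟩ := mainU h (1 / t) hc0 hc
  refine ⟨κ⁻¹ ^ t, by positivity, ?_⟩
  intro n hn
  have han : 1 ≤ a n := pos h n hn
  have h1 := hmain (a n) han
  rw [cnt_self h n hn] at h1
  have h2 : (a n : ℝ) ^ (1 / t) ≤ κ⁻¹ * n := by
    rw [inv_mul_eq_div, le_div_iff₀ hκ]
    linarith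
  have h3 : ((a n : ℝ) ^ (1 / t)) ^ t ≤ (κ⁻¹ * n) ^ t :=
    Real.rpow_le_rpow (by positivity) h2 ht0.le
  rw [← Real.rpow_mul (by positivity), one_div_mul_cancel ht0.ne', Real.rpow_one,
    Real.mul_rpow (by positivity) (by positivity)] at h3
  exact h3

end Pool.Agent.Helper12.HofU
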