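import Mathlib
import Pool.Agent.Helper12.HofU.Api

/-! HU-12: the combinatorial part of the gap bound.

Proof. Let `x = a (n+1) - 1`, so `a n ≤ x < a (n+1)` and `x ≥ 1`. Let `q` be minimal with
`x ≤ S a q` (exists as `S a q ≥ q`, or `S a x ≥ a x ≥ x`); `q ≥ 1` and `S a (q-1) < x`. Let `p` be
minimal with `S a q - x ≤ S a p` (`p ≤ q`).

* `x ≤ 2 a n`: `n = 1`: `x = 1`. `n ≥ 2`: `a (n+1) ≤ a (n-1) + a n` by `next_le`.
* `S a q ≤ 4 a n`: `S a q = S a (q-1) + a q ≤ 2 S a (q-1) + 1 ≤ 2 x ≤ 4 a n` (`le_S_add_one`, `S_succ`).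
* Case `p = 0`: then `S a q = x`. By `window' h 0 q` `x` is a term `a k`; as `a n ≤ a k < a (n+1)`,
  `k = n` (`index_le`), so `a (n+1) = a n + 1 = a n + a 1`; take `(1, q)`:
  `S a 1 = 1 ≤ 2 a q`.
* Case `p ≥ 1`: `S a (p-1) < S a q - x < a q`, because `x > S a (q-1) = S a q - a q`. Hence
  `S a p = S a (p-1) + a p ≤ 2 S a (p-1) + 1 ≤ 2 a q`. Next `p < q`: if `p = q`, then
  `S a (q-1) < S a q - x`, so `x < a q`, while `x ≥ S a (q-1) + 1 ≥ a q` by `le_S_add_one`, a contradiction.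
  So `t = S a q - S a p` is a term `a k` (`window'`), and `t ≤ x` (as `S a q - x ≤ S a p`), so
  `a k ≤ x < a (n+1)`, `k ≤ n` and `t ≤ a n`. Finally
  `x - t = S a p - (S a q - x) < S a p - S a (p-1) = a p`, so `a (n+1) - 1 = x < t + a p ≤ a n + a p`. -/

set_option autoImplicit false

namespace Pool.Agent.Helper12.HofU

open Finset Pool.Agent.Helper12.Hof

theorem gapComb {a : ℕ → ℕ} (h : IsHof a) (n : ℕ) (hn : 1 ≤ n) :
    ∃ p q : ℕ, 1 ≤ p ∧ 1 ≤ q ∧ a (n + 1) ≤ a n + a p ∧ S a p ≤ 2 * a q ∧ S a q ≤ 4 * a n := by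
  have hstep := step h n hn
  have hpn := pos h n hn
  obtain ⟨x, hx⟩ : ∃ x, a (n + 1) = x + 1 := ⟨a (n + 1) - 1, by omega⟩
  have hnx : a n ≤ x := by omega
  have hx1 : 1 ≤ x := by omega
  have hx2 : x ≤ 2 * a n := by
    rcases Nat.lt_or_ge n 2 with h2 | h2
    · have h3 : n = 1 := by omega
      subst h3
      have h4 : a 2 = 2 := h.2.1
      have h5 : a (1 + 1) = 2 := h4
      omega
    · obtain ⟨r, rfl⟩ : ∃ r, n = r + 1 := ⟨n - 1, by omega⟩
      have h3 := next_le h r (by omega)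
      have h4 := step h r (by omega)
      have h5 : a (r + 1 + 1) = a (r + 2) := rfl
      omega
  have hkn : ∀ k, 1 ≤ k → a k ≤ x → a k ≤ a n := by
    intro k hk hkx
    apply le_of_le h hk
    by_contra hcon
    push Not at hcon
    have := le_of_le h (show 1 ≤ n + 1 by omega) (show n + 1 ≤ k by omega)
    omega
  have hexq : ∃ q, x ≤ S a q := ⟨x, (ge_self h x hx1).trans (le_S x hx1)⟩
  obtain ⟨q, hq, hqmin⟩ : ∃ q, x ≤ S a q ∧ ∀ m < q, S a m < x := by
    classical
    refine ⟨Nat.find hexq, Nat.find_spec hexq, fun m hm => ?_⟩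
    have := Nat.find_min hexq hm
    omega
  have hexp : ∃ p, S a q - x ≤ S a p := ⟨q, Nat.sub_le _ _⟩
  obtain ⟨p, hp, hpmin⟩ : ∃ p, S a q - x ≤ S a p ∧ ∀ m < p, S a m < S a q - x := by
    classical
    refine ⟨Nat.find hexp, Nat.find_spec hexp, fun m hm => ?_⟩
    have := Nat.find_min hexp hm
    omega
  have hS0 := S_zero a
  obtain ⟨q', rfl⟩ : ∃ q', q = q' + 1 := by
    refine ⟨q - 1, ?_⟩
    have : q ≠ 0 := by
      rintro rfl
      omega
    omega
  have hq1 := hqmin q' (Nat.lt_succ_self q')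
  have hq2 := S_succ a q'
  have hq3 := le_S_add_one h q'
  have hS4 : S a (q' + 1) ≤ 4 * a n := by omega
  rcases Nat.eq_zero_or_pos p with hp0 | hp0
  · subst hp0
    have hSx : S a (q' + 1) = x := by omega
    obtain ⟨k, hk, hk2⟩ := window' h 0 (q' + 1) (Nat.succ_pos q')
    have hkx : a k = x := by omega
    have h1 := hkn k hk (by omega)
    have h2 : a n = x := by omega
    have h3 : a 1 = 1 := h.1
    have h4 := pos h (q' + 1) (by omega)
    have h5 : S a 1 = 1 := by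
      rw [S_succ, hS0, zero_add, zero_add]
      exact h3
    exact ⟨1, q' + 1, le_rfl, by omega, by omega, by omega, hS4⟩
  · obtain ⟨p', rfl⟩ : ∃ p', p = p' + 1 := ⟨p - 1, by omega⟩
    have hp1 := hpmin p' (Nat.lt_succ_self p')
    have hp2 := S_succ a p'
    have hp3 := le_S_add_one h p'
    have hpq : p' + 1 < q' + 1 := by
      by_contra hcon
      push Not at hcon
      rcases Nat.lt_or_ge q' p' with h1 | h1
      · have := hpmin (q' + 1) (by omega)
        omega
      · have h2 : p' = q' := by omega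
        subst h2
        omega
    obtain ⟨k, hk, hk2⟩ := window' h (p' + 1) (q' + 1) hpq
    have h1 := hkn k hk (by omega)
    exact ⟨p' + 1, q' + 1, by omega, by omega, by omega, by omega, hS4⟩

end Pool.Agent.Helper12.HofU
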