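import Mathlib
import Pool.Agent.Helper12.HofU.MainU

/-! HU-13: the terms are small in comparison with the partial sums.

Proof. If `σ ≥ 1` take `C = 1`: `a p ≤ S a p ≤ (S a p)^σ` (`le_S`, and `S a p ≥ 1`). Let `σ < 1`
(and `σ > 0`, since `√10 > 2`).
Since `1/(1 + (√10 - 1)/3) = 3/(2 + √10) = (√10 - 2)/2 < σ`, `1/σ - 1 < c₀ := (√10 - 1)/3`; choose `c`
with `max (1/σ - 1) 0 < c < c₀`. Then `c^2 + (2/3) c < c₀^2 + (2/3) c₀ = 1` and
`η := σ (1 + c) - 1 > 0`. Let `κ` be as in `mainU`.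

Let `y = a p`, `L = Nat.log 2 y`; `cnt a y = p` (`cnt_self`) and `κ y^c ≤ p`. Let
`D = p - cnt a (y/2)`. By `dyadic` `p ≤ (L+1)(D+L)`. By `S_ge` with `i = cnt a (y/2)`, `u = p`,
`w = y/2 + 1` (`w ≤ a (i+1)` by `lt_iff`), `S a p ≥ D (y/2+1) ≥ D y / 2` (real division).
If `κ y^c ≥ 2 L (L+1)`, then `D ≥ p/(L+1) - L ≥ p/(2(L+1))`, so
`S a p ≥ κ y^(1+c) / (4 (L+1))` and `(S a p)^σ ≥ (κ/(4(L+1)))^σ y^(1+η)`, which is at least `y` if
`(4(L+1)/κ)^σ ≤ y^η`. Both conditions hold for `y ≥ y₁` (`L ≤ 2 log y`, and logarithms are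
`o` of positive powers). For `y < y₁` the claim holds with `C = y₁`, since `S a p ≥ 1`. So
`C = max 1 y₁` works. -/

set_option autoImplicit false

namespace Pool.Agent.Helper12.HofU

open Finset Pool.Agent.Helper12.Hof

private lemma termSum_log {ε : ℝ} (hε : 0 < ε) {y : ℕ} (hy : 1 ≤ y) :
    ((Nat.log 2 y : ℕ) : ℝ) + 1 ≤ (1 + 2 / ε) * (y : ℝ) ^ ε := by
  have hy0 : (0 : ℝ) < y := by exact_mod_cast hy
  have hy1 : (1 : ℝ) ≤ y := by exact_mod_cast hy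
  have h1 : (1 : ℝ) ≤ (y : ℝ) ^ ε := Real.one_le_rpow hy1 hε.le
  have h2 : Real.log y ≤ (y : ℝ) ^ ε / ε := Real.log_le_rpow_div hy0.le hε
  have h3 : ((Nat.log 2 y : ℕ) : ℝ) * Real.log 2 ≤ Real.log y := by
    have h4 : ((2 ^ Nat.log 2 y : ℕ) : ℝ) ≤ y := by
      exact_mod_cast Nat.pow_log_le_self 2 (by omega)
    have h5 := Real.log_le_log (by positivity) h4
    push_cast at h5
    rwa [Real.log_pow] at h5
  have h6 : (1 / 2 : ℝ) ≤ Real.log 2 := by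
    have := Real.log_two_gt_d9
    linarith
  have h7 : (0 : ℝ) ≤ ((Nat.log 2 y : ℕ) : ℝ) := Nat.cast_nonneg _
  have h8 : ((Nat.log 2 y : ℕ) : ℝ) ≤ 2 * Real.log y := by
    nlinarith [mul_le_mul_of_nonneg_left h6 h7]
  have h9 : (1 + 2 / ε) * (y : ℝ) ^ ε = (y : ℝ) ^ ε + 2 * ((y : ℝ) ^ ε / ε) := by ring
  rw [h9]
  linarith

theorem termSum {a : ℕ → ℕ} (h : IsHof a) (σ : ℝ) (hσ : (Real.sqrt 10 - 2) / 2 < σ) :
    ∃ C : ℝ, 0 < C ∧ ∀ p : ℕ, 1 ≤ p → (a p : ℝ) ≤ C * (S a p : ℝ) ^ σ := by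
  have hSp : ∀ p : ℕ, 1 ≤ p → (1 : ℝ) ≤ (S a p : ℝ) := by
    intro p hp
    have h1 : 1 ≤ S a p := (pos h p hp).trans (le_S p hp)
    exact_mod_cast h1
  rcases le_or_gt 1 σ with hσ1 | hσ1
  · refine ⟨1, one_pos, fun p hp => ?_⟩
    rw [one_mul]
    have h1 : (a p : ℝ) ≤ (S a p : ℝ) := by exact_mod_cast le_S (a := a) p hp
    have h2 : (S a p : ℝ) ^ (1 : ℝ) ≤ (S a p : ℝ) ^ σ :=
      Real.rpow_le_rpow_of_exponent_le (hSp p hp) hσ1
    rw [Real.rpow_one] at h2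
    exact h1.trans h2
  set s : ℝ := Real.sqrt 10 with hs
  have hs2 : s ^ 2 = 10 := Real.sq_sqrt (by norm_num)
  have hs3 : (3 : ℝ) < s := by
    rw [hs]
    apply Real.lt_sqrt_of_sq_lt
    norm_num
  have hσ0 : 0 < σ := by linarith
  have hc01 : 1 / σ - 1 < (s - 1) / 3 := by
    have h1 : 1 / σ < (s + 2) / 3 := by
      rw [div_lt_iff₀ hσ0]
      have h2 : (s + 2) / 3 * ((s - 2) / 2) = 1 := by
        have : (s + 2) / 3 * ((s - 2) / 2) = (s ^ 2 - 4) / 6 := by ring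
        rw [this, hs2]
        norm_num
      have h3 : (s + 2) / 3 * ((s - 2) / 2) < (s + 2) / 3 * σ :=
        mul_lt_mul_of_pos_left hσ (by linarith)
      linarith
    linarith
  have hσi : 1 < 1 / σ := by
    rw [lt_div_iff₀ hσ0]
    linarith
  obtain ⟨c, hc1, hc2⟩ := exists_between hc01
  have hc0 : 0 < c := by linarith
  have hcc : c ^ 2 + 2 / 3 * c < 1 := by
    have h1 : ((s - 1) / 3) ^ 2 + 2 / 3 * ((s - 1) / 3) = 1 := by
      have : ((s - 1) / 3) ^ 2 + 2 / 3 * ((s - 1) / 3) = (s ^ 2 - 1) / 9 := by ring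
      rw [this, hs2]
      norm_num
    nlinarith
  have hη : 0 < σ * (1 + c) - 1 := by
    have h1 : σ * (1 / σ) < σ * (1 + c) := mul_lt_mul_of_pos_left (by linarith) hσ0
    rw [mul_one_div_cancel hσ0.ne'] at h1
    linarith
  obtain ⟨κ, hκ, hmain⟩ := mainU h c hc0 hcc
  set η := σ * (1 + c) - 1 with hηd
  set ε := min (c / 4) (η / σ) with hεd
  have hε0 : 0 < ε := lt_min (by linarith) (div_pos hη hσ0)
  have hε1 : ε ≤ c / 4 := min_le_left _ _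
  have hε2 : σ * ε ≤ η := by
    have h1 : ε ≤ η / σ := min_le_right _ _
    rw [le_div_iff₀ hσ0] at h1
    linarith
  set K := 1 + 2 / ε with hK
  have hK0 : 0 < K := by positivity
  have hce : 0 < c - 2 * ε := by linarith
  set y1 := (2 * K ^ 2 / κ) ^ (1 / (c - 2 * ε)) with hy1
  set C2 := (4 * K / κ) ^ σ with hC2
  have hy1p : 0 < y1 := Real.rpow_pos_of_pos (by positivity) _
  have hC2p : 0 < C2 := Real.rpow_pos_of_pos (by positivity) _
  refine ⟨y1 + C2, by positivity, fun p hp => ?_⟩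
  set y := a p with hyd
  have hyp : 1 ≤ y := pos h p hp
  have hy0 : (0 : ℝ) < (y : ℝ) := by exact_mod_cast hyp
  have hcnt : cnt a y = p := cnt_self h p hp
  set L := Nat.log 2 y with hL
  have hLK : (L : ℝ) + 1 ≤ K * (y : ℝ) ^ ε := termSum_log hε0 hyp
  have hL0 : (0 : ℝ) ≤ (L : ℝ) := Nat.cast_nonneg _
  have hκp : κ * (y : ℝ) ^ c ≤ (p : ℝ) := by
    have h1 := hmain y hyp
    rwa [hcnt] at h1
  have hSσ : (1 : ℝ) ≤ (S a p : ℝ) ^ σ := Real.one_le_rpow (hSp p hp) hσ0.le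
  rcases le_or_gt (2 * (L : ℝ) * (L + 1)) (κ * (y : ℝ) ^ c) with hA | hA
  · -- the main case
    have hd := dyadic h y
    rw [hcnt, ← hL] at hd
    set D := p - cnt a (y / 2) with hD
    have hiu : cnt a (y / 2) ≤ p := by
      rw [← hcnt]
      exact cnt_mono h (Nat.div_le_self y 2)
    have hw : y / 2 + 1 ≤ a (cnt a (y / 2) + 1) := by
      have h1 := (lt_iff h (n := cnt a (y / 2) + 1) (x := y / 2) (by omega)).1 (by omega)
      omega
    have hS := S_ge h (cnt a (y / 2)) p (y / 2 + 1) hiu hw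
    rw [← hD] at hS
    have hS' : (D : ℝ) * ((y : ℝ) / 2) ≤ (S a p : ℝ) := by
      have h1 : ((D * (y / 2 + 1) : ℕ) : ℝ) ≤ (S a p : ℝ) := by exact_mod_cast hS
      have h2 : (y : ℝ) / 2 ≤ ((y / 2 + 1 : ℕ) : ℝ) := by
        have h3 : y ≤ 2 * (y / 2 + 1) := by omega
        have h4 : (y : ℝ) ≤ 2 * ((y / 2 + 1 : ℕ) : ℝ) := by exact_mod_cast h3
        linarith
      rw [Nat.cast_mul] at h1
      exact (mul_le_mul_of_nonneg_left h2 (Nat.cast_nonneg _)).trans h1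
    have hd' : (p : ℝ) ≤ ((L : ℝ) + 1) * ((D : ℝ) + L) := by exact_mod_cast hd
    have hDp : (p : ℝ) ≤ 2 * ((L : ℝ) + 1) * D := by
      nlinarith
    have h5 : κ * (y : ℝ) ^ c * y ≤ 4 * ((L : ℝ) + 1) * (S a p : ℝ) := by
      have h6 : κ * (y : ℝ) ^ c * y ≤ (2 * ((L : ℝ) + 1) * D) * y :=
        mul_le_mul_of_nonneg_right (hκp.trans hDp) hy0.le
      have h7 : (2 * ((L : ℝ) + 1) * D) * y = 4 * ((L : ℝ) + 1) * (D * ((y : ℝ) / 2)) := by ring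
      rw [h7] at h6
      exact h6.trans (mul_le_mul_of_nonneg_left hS' (by positivity))
    have hSnn : (0 : ℝ) ≤ (S a p : ℝ) := Nat.cast_nonneg _
    have h8 : κ * (y : ℝ) ^ c * y ≤ 4 * (K * (y : ℝ) ^ ε) * (S a p : ℝ) :=
      h5.trans (mul_le_mul_of_nonneg_right (by linarith) hSnn)
    have h9 : (y : ℝ) ^ (1 + c - ε) ≤ 4 * K / κ * (S a p : ℝ) := by
      have h10 : (y : ℝ) ^ (1 + c - ε) * (y : ℝ) ^ ε = (y : ℝ) ^ c * y := by
        rw [← Real.rpow_add hy0, sub_add_cancel, add_comm, Real.rpow_add hy0, Real.rpow_one]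
      have hyε : 0 < (y : ℝ) ^ ε := Real.rpow_pos_of_pos hy0 _
      rw [div_mul_eq_mul_div, le_div_iff₀ hκ]
      have h11 : ((y : ℝ) ^ (1 + c - ε) * κ) * (y : ℝ) ^ ε ≤
          (4 * K * (S a p : ℝ)) * (y : ℝ) ^ ε := by
        calc ((y : ℝ) ^ (1 + c - ε) * κ) * (y : ℝ) ^ ε
            = κ * ((y : ℝ) ^ (1 + c - ε) * (y : ℝ) ^ ε) := by ring
          _ = κ * (y : ℝ) ^ c * y := by rw [h10]; ring
          _ ≤ 4 * (K * (y : ℝ) ^ ε) * (S a p : ℝ) := h8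
          _ = (4 * K * (S a p : ℝ)) * (y : ℝ) ^ ε := by ring
      exact le_of_mul_le_mul_right h11 hyε
    have h12 : (y : ℝ) ≤ C2 * (S a p : ℝ) ^ σ := by
      have h13 : (y : ℝ) ^ (1 : ℝ) ≤ (y : ℝ) ^ ((1 + c - ε) * σ) := by
        apply Real.rpow_le_rpow_of_exponent_le (by exact_mod_cast hyp)
        have : (1 + c - ε) * σ = 1 + (η - σ * ε) := by
          rw [hηd]
          ring
        rw [this]
        linarith
      rw [Real.rpow_one, Real.rpow_mul hy0.le] at h13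
      refine h13.trans ?_
      rw [hC2, ← Real.mul_rpow (by positivity) hSnn]
      exact Real.rpow_le_rpow (Real.rpow_nonneg hy0.le _) h9 hσ0.le
    calc (y : ℝ) ≤ C2 * (S a p : ℝ) ^ σ := h12
      _ ≤ (y1 + C2) * (S a p : ℝ) ^ σ := by
        apply mul_le_mul_of_nonneg_right _ (by positivity)
        linarith
  · -- small values
    have h1 : 2 * (L : ℝ) * (L + 1) ≤ 2 * K ^ 2 * (y : ℝ) ^ (2 * ε) := by
      have h2 : (L : ℝ) * (L + 1) ≤ ((L : ℝ) + 1) ^ 2 := by nlinarith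
      have h3 : ((L : ℝ) + 1) ^ 2 ≤ (K * (y : ℝ) ^ ε) ^ 2 :=
        pow_le_pow_left₀ (by linarith) hLK 2
      have h4 : (K * (y : ℝ) ^ ε) ^ 2 = K ^ 2 * (y : ℝ) ^ (2 * ε) := by
        rw [mul_pow, mul_comm 2 ε, Real.rpow_mul hy0.le]
        norm_num
      nlinarith
    have h2 : κ * (y : ℝ) ^ c < 2 * K ^ 2 * (y : ℝ) ^ (2 * ε) := hA.trans_le h1
    have h3 : (y : ℝ) ^ (c - 2 * ε) < 2 * K ^ 2 / κ := by
      have h4 : (y : ℝ) ^ (c - 2 * ε) * (y : ℝ) ^ (2 * ε) = (y : ℝ) ^ c := by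
        rw [← Real.rpow_add hy0, sub_add_cancel]
      have hyε : 0 < (y : ℝ) ^ (2 * ε) := Real.rpow_pos_of_pos hy0 _
      rw [lt_div_iff₀ hκ]
      have h5 : ((y : ℝ) ^ (c - 2 * ε) * κ) * (y : ℝ) ^ (2 * ε) <
          (2 * K ^ 2) * (y : ℝ) ^ (2 * ε) := by
        calc ((y : ℝ) ^ (c - 2 * ε) * κ) * (y : ℝ) ^ (2 * ε)
            = κ * ((y : ℝ) ^ (c - 2 * ε) * (y : ℝ) ^ (2 * ε)) := by ring
          _ = κ * (y : ℝ) ^ c := by rw [h4]
          _ < _ := h2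
      exact lt_of_mul_lt_mul_right h5 hyε.le
    have h6 : (y : ℝ) ≤ y1 := by
      have h7 := Real.rpow_le_rpow (Real.rpow_nonneg hy0.le _) h3.le
        (by positivity : (0 : ℝ) ≤ 1 / (c - 2 * ε))
      rw [← Real.rpow_mul hy0.le, mul_one_div_cancel hce.ne', Real.rpow_one] at h7
      exact h7
    calc (y : ℝ) ≤ y1 := h6
      _ ≤ y1 + C2 := by linarith
      _ = (y1 + C2) * 1 := (mul_one _).symm
      _ ≤ (y1 + C2) * (S a p : ℝ) ^ σ :=
        mul_le_mul_of_nonneg_left hSσ (by positivity)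

end Pool.Agent.Helper12.HofU
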