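import Mathlib
import Pool.Agent.Helper12.HofU.GapComb
import Pool.Agent.Helper12.HofU.TermSum

/-! HU-14: the gap bound.

Proof. Let `γ = (7 - 2√10)/2 = ((√10 - 2)/2)^2`, `σ = √(γ + ε)`, so `σ > (√10 - 2)/2 > 0` and
`σ^2 = γ + ε`. Let `C₁` be as in `termSum`. With `p`, `q` as in `gapComb`:
`a (n+1) - a n ≤ a p ≤ C₁ (S a p)^σ ≤ C₁ (2 a q)^σ ≤ C₁ (2 C₁ (S a q)^σ)^σ
≤ C₁ (2 C₁ (4 a n)^σ)^σ = C₁ (2 C₁)^σ 4^(σ^2) (a n)^(σ^2)`. -/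

set_option autoImplicit false

namespace Pool.Agent.Helper12.HofU

open Finset Pool.Agent.Helper12.Hof

theorem gapU {a : ℕ → ℕ} (h : IsHof a) (ε : ℝ) (hε : 0 < ε) :
    ∃ C : ℝ, 0 < C ∧ ∀ n : ℕ, 1 ≤ n →
      (a (n + 1) : ℝ) - a n ≤ C * (a n : ℝ) ^ ((7 - 2 * Real.sqrt 10) / 2 + ε) := by
  have h10 : (0 : ℝ) ≤ 10 := by norm_num
  have hs2 : Real.sqrt 10 * Real.sqrt 10 = 10 := Real.mul_self_sqrt h10
  have hs3 : (3 : ℝ) < Real.sqrt 10 := by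
    rw [Real.lt_sqrt (by norm_num)]
    norm_num
  generalize hs : Real.sqrt 10 = s at *
  have hγ : ((s - 2) / 2) ^ 2 = (7 - 2 * s) / 2 := by nlinarith
  have hpos : 0 < (7 - 2 * s) / 2 + ε := by
    have : 0 ≤ ((s - 2) / 2) ^ 2 := sq_nonneg _
    linarith
  obtain ⟨σ, hσ0, hσ2⟩ : ∃ σ : ℝ, 0 < σ ∧ σ * σ = (7 - 2 * s) / 2 + ε :=
    ⟨Real.sqrt ((7 - 2 * s) / 2 + ε), Real.sqrt_pos.2 hpos, Real.mul_self_sqrt hpos.le⟩
  have hσ : (Real.sqrt 10 - 2) / 2 < σ := by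
    rw [hs]
    by_contra hcon
    push Not at hcon
    nlinarith
  obtain ⟨C, hC, hT⟩ := termSum h σ hσ
  refine ⟨C * ((2 * C) ^ σ * (4 : ℝ) ^ (σ * σ)), by positivity, ?_⟩
  intro n hn
  obtain ⟨p, q, hp, hq, h1, h2, h3⟩ := gapComb h n hn
  have h1' : (a (n + 1) : ℝ) ≤ a n + a p := by exact_mod_cast h1
  have h2' : (S a p : ℝ) ≤ 2 * a q := by exact_mod_cast h2
  have h3' : (S a q : ℝ) ≤ 4 * a n := by exact_mod_cast h3
  have hq1 : (a q : ℝ) ≤ C * (4 * (a n : ℝ)) ^ σ :=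
    (hT q hq).trans (mul_le_mul_of_nonneg_left
      (Real.rpow_le_rpow (by positivity) h3' hσ0.le) hC.le)
  have hp1 : (a p : ℝ) ≤ C * (2 * C * (4 * (a n : ℝ)) ^ σ) ^ σ := by
    refine (hT p hp).trans (mul_le_mul_of_nonneg_left
      (Real.rpow_le_rpow (by positivity) ?_ hσ0.le) hC.le)
    calc (S a p : ℝ) ≤ 2 * a q := h2'
      _ ≤ 2 * (C * (4 * (a n : ℝ)) ^ σ) := by linarith
      _ = 2 * C * (4 * (a n : ℝ)) ^ σ := by ring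
  have heq : C * (2 * C * (4 * (a n : ℝ)) ^ σ) ^ σ
      = C * ((2 * C) ^ σ * (4 : ℝ) ^ (σ * σ)) * (a n : ℝ) ^ (σ * σ) := by
    rw [Real.mul_rpow (by positivity) (by positivity), ← Real.rpow_mul (by positivity),
      Real.mul_rpow (x := (4 : ℝ)) (y := (a n : ℝ)) (by norm_num) (by positivity)]
    ring
  rw [← hσ2, ← heq]
  linarith

end Pool.Agent.Helper12.HofU
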